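import Pool.Agent.W180.TP.Nor
import Mathlib

/-!
**A gap for the heights**, uniformly in all number fields of bounded degree.
-/

set_option autoImplicit false

namespace Run7.h197.U

open Finset NumberField Height

/-- **the gap** -/
theorem gap (D : ℕ) : ∃ N : ℕ, 1 ≤ N ∧ ∀ (K : Type) [Field K] [NumberField K],
    Module.finrank ℚ K ≤ D → ∀ x : K, (∀ n : ℕ, 1 ≤ n → x ^ n ≠ 1) → x ≠ 0 → 2 < mulHeight₁ x ^ N := by
  classical
  have hfin := Pool.Agent.W180.TP.northcott_bdd ℂ D (Real.log 2)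
  obtain ⟨U, hU⟩ : ∃ U : Set ℂ, U = {u : ℂ | ∃ (L : Type) (_ : Field L) (_ : NumberField L)
    (σ : L →+* ℂ) (u' : L), σ u' = u ∧ Module.finrank ℚ L ≤ D ∧ logHeight₁ u' ≤ Real.log 2} :=
    ⟨_, rfl⟩
  rw [← hU] at hfin
  refine ⟨hfin.toFinset.card + 1, by omega, ?_⟩
  intro K _ _ hK x hx hx0
  by_contra hcon
  push Not at hcon
  obtain ⟨N, hN⟩ : ∃ N, N = hfin.toFinset.card + 1 := ⟨_, rfl⟩
  rw [← hN] at hcon
  obtain ⟨σ⟩ : Nonempty (K →+* ℂ) := inferInstance
  have hmem : ∀ i ∈ Finset.range N, σ (x ^ i) ∈ hfin.toFinset := by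
    intro i hi
    rw [Finset.mem_range] at hi
    rw [Set.Finite.mem_toFinset, hU]
    refine ⟨K, inferInstance, inferInstance, σ, x ^ i, rfl, hK, ?_⟩
    rw [logHeight₁_eq_log_mulHeight₁, mulHeight₁_pow]
    apply Real.log_le_log (pow_pos (mulHeight₁_pos x) _)
    exact (pow_le_pow_right₀ (one_le_mulHeight₁ x) hi.le).trans hcon
  obtain ⟨i, hi, j, hj, hij, heq⟩ := Finset.exists_ne_map_eq_of_card_lt_of_maps_to
    (s := Finset.range N) (t := hfin.toFinset) (by rw [Finset.card_range]; omega)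
    (f := fun i => σ (x ^ i)) hmem
  have heq' : x ^ i = x ^ j := σ.injective heq
  rcases Nat.lt_or_gt_of_ne hij with h | h
  · apply hx (j - i) (by omega)
    have h1 : x ^ j = x ^ i * x ^ (j - i) := by rw [← pow_add]; congr 1; omega
    rw [h1] at heq'
    exact mul_left_cancel₀ (pow_ne_zero i hx0) (by rw [← heq', mul_one])
  · apply hx (i - j) (by omega)
    have h1 : x ^ i = x ^ j * x ^ (i - j) := by rw [← pow_add]; congr 1; omega
    rw [h1] at heq'
    exact mul_left_cancel₀ (pow_ne_zero j hx0) (by rw [heq', mul_one])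

end Run7.h197.U
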