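import Pool.Agent.Run7.h197.U.Fin
import Pool.Agent.TH876.Sums

/-!
**Products over the archimedean places and a finite set of finite places**, and the total distance
of a power from `1`.
-/

set_option autoImplicit false

namespace Run7.h197.U

open Finset NumberField Height IsDedekindDomain
open Run7.h197.ST Run7.h197.PB Pool.Agent.H691R3
open Pool.Agent.Y913.Bk (PolyB)

variable {K : Type} [Field K] [NumberField K]

/-- the product of the local factors over the archimedean places (with multiplicities) and `S` -/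
noncomputable def PP (S : Finset (HeightOneSpectrum (𝓞 K))) (F : AbsoluteValue K ℝ → ℝ) : ℝ :=
  (∏ w : InfinitePlace K, F w.1 ^ w.mult) * ∏ v ∈ S, F (fv v)

variable (S : Finset (HeightOneSpectrum (𝓞 K)))

lemma PP_mul (F G : AbsoluteValue K ℝ → ℝ) : PP S (fun w => F w * G w) = PP S F * PP S G := by
  unfold PP
  simp only [mul_pow, Finset.prod_mul_distrib]
  ring

lemma PP_nonneg {F : AbsoluteValue K ℝ → ℝ} (hF : ∀ w, 0 ≤ F w) : 0 ≤ PP S F :=
  mul_nonneg (Finset.prod_nonneg fun w _ => pow_nonneg (hF w.1) _)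
    (Finset.prod_nonneg fun v _ => hF (fv v))

lemma PP_mono {F G : AbsoluteValue K ℝ → ℝ} (hF : ∀ w, 0 ≤ F w) (h : ∀ w, F w ≤ G w) :
    PP S F ≤ PP S G :=
  mul_le_mul (Finset.prod_le_prod (fun w _ => pow_nonneg (hF w.1) _)
      fun w _ => pow_le_pow_left₀ (hF w.1) (h w.1) _)
    (Finset.prod_le_prod (fun v _ => hF (fv v)) fun v _ => h (fv v))
    (Finset.prod_nonneg fun v _ => hF (fv v))
    (Finset.prod_nonneg fun w _ => pow_nonneg ((hF w.1).trans (h w.1)) _)

lemma PP_one : PP S (fun _ => (1 : ℝ)) = 1 := by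
  unfold PP
  simp

lemma PP_pow (F : AbsoluteValue K ℝ → ℝ) (n : ℕ) : PP S (fun w => F w ^ n) = PP S F ^ n := by
  unfold PP
  rw [mul_pow, ← Finset.prod_pow, ← Finset.prod_pow]
  congr 1
  exact Finset.prod_congr rfl fun w _ => by rw [← pow_mul, ← pow_mul, mul_comm]

lemma PP_prod {ι : Type} (s : Finset ι) (F : ι → AbsoluteValue K ℝ → ℝ) :
    PP S (fun w => ∏ i ∈ s, F i w) = ∏ i ∈ s, PP S (F i) := by
  classical
  induction s using Finset.induction_on with
  | empty =>
    simp only [Finset.prod_empty]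
    exact PP_one S
  | insert a s ha ih =>
    simp only [Finset.prod_insert ha]
    rw [PP_mul, ih]

/-- the `S`-part of the height -/
noncomputable def HS (x : K) : ℝ := PP S fun w => max (w x) 1

lemma one_le_HS (x : K) : 1 ≤ HS S x := by
  have h := PP_mono S (F := fun _ => (1 : ℝ)) (G := fun w => max (w x) 1)
    (fun _ => zero_le_one) fun w => le_max_right _ _
  rwa [PP_one] at h

lemma HS_le_height (x : K) : HS S x ≤ mulHeight₁ x := by
  classical
  rw [NumberField.mulHeight₁_eq]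
  unfold HS PP
  apply mul_le_mul_of_nonneg_left _ (Finset.prod_nonneg fun w _ => by positivity)
  by_cases hx : x = 0
  · have h1 : ∏ v ∈ S, max (fv v x) 1 = 1 := by
      apply Finset.prod_eq_one
      intro v _
      rw [hx, map_zero]
      exact max_eq_right zero_le_one
    have h2 : ∏ᶠ v : FinitePlace K, max (v x) 1 = 1 := by
      apply finprod_eq_one_of_forall_eq_one
      intro v
      rw [hx, map_zero]
      exact max_eq_right zero_le_one
    rw [h1, h2]
  · have h3 : ∏ v ∈ S, max (fv v x) 1 =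
        ∏ w ∈ S.image (fun v => FinitePlace.mk v), max (w x) 1 := by
      rw [Finset.prod_image fun a _ b _ hab => FinitePlace.mk_eq_iff.mp hab]
      rfl
    rw [h3]
    refine Pool.Agent.H57R3.VJ.prod_le_fp (fun v : FinitePlace K => max (v x) 1)
      (fun v => le_max_right _ _) ?_ _
    refine (FinitePlace.hasFiniteMulSupport hx).subset ?_
    intro v hv
    rw [Function.mem_mulSupport] at hv ⊢
    intro h
    apply hv
    simp [h]

/-- the absolute values at infinite places are given by embeddings -/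
lemma inf_far {κ g₀ : ℕ} (h : ∀ (φ : K →+* ℂ) (x : K), x ≠ 0 → (∀ N : ℕ, 1 ≤ N → x ^ N ≠ 1) →
    ∀ g d X : ℕ, g₀ ≤ g → 1 ≤ d → d ≤ 2 ^ g → mulHeight₁ x ≤ 2 ^ X →
      (1 / 2 : ℝ) ^ (g ^ κ * (2 * X + 1) + 1) ≤ ‖φ x ^ d - 1‖) (w : InfinitePlace K)
    (x : K) (hx : x ≠ 0) (hroot : ∀ N : ℕ, 1 ≤ N → x ^ N ≠ 1) (g d X : ℕ) (hg : g₀ ≤ g) (hd : 1 ≤ d)
    (hdg : d ≤ 2 ^ g) (hX : mulHeight₁ x ≤ 2 ^ X) :
    (1 / 2 : ℝ) ^ (g ^ κ * (2 * X + 1) + 1) ≤ w.1 (x ^ d - 1) := by
  have h1 := h w.embedding x hx hroot g d X hg hd hdg hX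
  have h2 : ‖w.embedding (x ^ d - 1)‖ = w (x ^ d - 1) := InfinitePlace.norm_embedding_eq w _
  rw [map_sub, map_pow, map_one] at h2
  rw [h2] at h1
  exact h1

/-- roots of unity have height one -/
lemma height_root {x : K} {N : ℕ} (hN : 1 ≤ N) (h : x ^ N = 1) : mulHeight₁ x = 1 := by
  have h1 : mulHeight₁ x ^ N = 1 := by rw [← mulHeight₁_pow, h, mulHeight₁_one]
  exact (pow_eq_one_iff_of_nonneg (mulHeight₁_nonneg _) (by omega)).1 h1

/-- the trivial bound for powers of roots of unity -/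
lemma height_root_sub (D : ℕ) (hD : Module.finrank ℚ K ≤ D) {x : K} {N : ℕ} (hN : 1 ≤ N)
    (h : x ^ N = 1) (d : ℕ) : mulHeight₁ (x ^ d - 1) ≤ 2 ^ D := by
  calc mulHeight₁ (x ^ d - 1) ≤ 2 ^ totalWeight K * mulHeight₁ (x ^ d) * mulHeight₁ (1 : K) :=
        mulHeight₁_sub_le _ _
    _ = 2 ^ totalWeight K := by
        rw [mulHeight₁_one, mul_one, mulHeight₁_pow, height_root hN h, one_pow, mul_one]
    _ ≤ _ := by
        apply pow_le_pow_right₀ (by norm_num)
        rw [totalWeight_eq_finrank]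
        exact hD

lemma inf_root (D : ℕ) (hD : Module.finrank ℚ K ≤ D) {x : K} {N : ℕ} (hN : 1 ≤ N)
    (h : x ^ N = 1) {d : ℕ} (hd : x ^ d ≠ 1) (w : InfinitePlace K) :
    (1 / 2 : ℝ) ^ D ≤ w.1 (x ^ d - 1) := by
  have h0 : x ^ d - 1 ≠ 0 := sub_ne_zero.2 hd
  have h1 := conj_le_height w.embedding (x ^ d - 1)⁻¹
  rw [InfinitePlace.norm_embedding_eq, mulHeight₁_inv, map_inv₀] at h1
  have h2 : 0 < w (x ^ d - 1) := InfinitePlace.pos_iff.2 h0
  have h3 : (w (x ^ d - 1))⁻¹ ≤ 2 ^ D := h1.trans (height_root_sub D hD hN h d)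
  rw [inv_le_comm₀ h2 (by positivity)] at h3
  rw [one_div, inv_pow]
  exact h3

lemma fin_root (D : ℕ) (hD : Module.finrank ℚ K ≤ D) {x : K} {N : ℕ} (hN : 1 ≤ N)
    (h : x ^ N = 1) {d : ℕ} (hd : x ^ d ≠ 1) (v : HeightOneSpectrum (𝓞 K)) :
    (1 / 2 : ℝ) ^ D ≤ fv v (x ^ d - 1) := by
  have h0 : x ^ d - 1 ≠ 0 := sub_ne_zero.2 hd
  have h1 := fv_le_height v (inv_ne_zero h0)
  rw [mulHeight₁_inv, map_inv₀] at h1
  have h2 : 0 < fv v (x ^ d - 1) := (fv v).pos h0
  have h3 : (fv v (x ^ d - 1))⁻¹ ≤ 2 ^ D := h1.trans (height_root_sub D hD hN h d)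
  rw [inv_le_comm₀ h2 (by positivity)] at h3
  rw [one_div, inv_pow]
  exact h3

/-- the number of places of small norm -/
lemma card_le_sum (D : ℕ) (hD : Module.finrank ℚ K ≤ D) (T : ℕ) :
    S.card * T ≤ D * (T + 1) * T + ∑ v ∈ S, Ideal.absNorm v.asIdeal := by
  classical
  obtain ⟨S₁, hS₁⟩ : ∃ S₁, S₁ = S.filter fun v => Ideal.absNorm v.asIdeal ≤ T := ⟨_, rfl⟩
  obtain ⟨S₂, hS₂⟩ : ∃ S₂, S₂ = S.filter fun v => ¬ Ideal.absNorm v.asIdeal ≤ T := ⟨_, rfl⟩
  have h1 : S.card = S₁.card + S₂.card := by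
    rw [hS₁, hS₂, Finset.card_filter_add_card_filter_not]
  have h2 : S₁.card ≤ D * (T + 1) := by
    calc S₁.card ≤ D * (S₁.image fun v => Pool.Agent.TH876.Loc.pv v).card := by
          refine Finset.card_le_mul_card_image S₁ _ ?_
          intro p _
          exact (Pool.Agent.TH876.Loc.card_above p _ fun v hv => (Finset.mem_filter.1 hv).2).trans hD
      _ ≤ _ := by
          apply Nat.mul_le_mul_left
          rw [← Finset.card_range (T + 1)]
          apply Finset.card_le_card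
          intro p hp
          obtain ⟨v, hv, rfl⟩ := Finset.mem_image.1 hp
          rw [hS₁, Finset.mem_filter] at hv
          rw [Finset.mem_range]
          have := Pool.Agent.TH876.Loc.pv_le v
          omega
  have h3 : S₂.card * T ≤ ∑ v ∈ S, Ideal.absNorm v.asIdeal := by
    calc S₂.card * T = ∑ _v ∈ S₂, T := by rw [Finset.sum_const, smul_eq_mul]
      _ ≤ ∑ v ∈ S₂, Ideal.absNorm v.asIdeal := by
          apply Finset.sum_le_sum
          intro v hv
          rw [hS₂, Finset.mem_filter] at hv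
          omega
      _ ≤ _ := by
          apply Finset.sum_le_sum_of_subset
          rw [hS₂]
          exact Finset.filter_subset _ _
  calc S.card * T = S₁.card * T + S₂.card * T := by rw [h1, add_mul]
    _ ≤ D * (T + 1) * T + ∑ v ∈ S, Ideal.absNorm v.asIdeal :=
        Nat.add_le_add (Nat.mul_le_mul_right _ h2) h3

/-- **the total distance of a power from `1`** -/
theorem far_total (D L c₁ : ℕ) : ∃ d₀ Λ : ℕ, ∀ (K : Type) [Field K] [NumberField K],
    Module.finrank ℚ K ≤ D → ∀ (S : Finset (HeightOneSpectrum (𝓞 K))) (d : ℕ), d₀ ≤ d →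
    Λ * ∑ v ∈ S, Ideal.absNorm v.asIdeal ≤ d → ∀ (x : K), x ≠ 0 → x ^ d ≠ 1 →
    ∀ X : ℕ, mulHeight₁ x ≤ 2 ^ X →
      (1 / 2 : ℝ) ^ (d * (X + 1)) ≤ (PP S fun w => min 1 (w (x ^ d - 1)) / 2 ^ c₁) ^ L := by
  classical
  obtain ⟨κ, g₀, hpow⟩ := pow_far D
  have hpoly := ((PolyB.const (4 * (L * D))).mul (((PolyB.const 2).mul (PolyB.id.pow κ)).add
    (PolyB.const (1 + D + c₁)))).add ((PolyB.const (4 * (L * (D + c₁) * D))).mul
      ((PolyB.id.add (PolyB.const 2)).mul (PolyB.id.add (PolyB.const 1))))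
  obtain ⟨g1, hg1⟩ := hpoly.le_two_pow
  refine ⟨2 ^ (g₀ + g1 + 1), 2 * (L * (D + c₁ + cD D)), ?_⟩
  intro K _ _ hK S d hd hΛ x hx0 hroot X hX
  obtain ⟨Q, hQ⟩ : ∃ Q, Q = ∑ v ∈ S, Ideal.absNorm v.asIdeal := ⟨_, rfl⟩
  rw [← hQ] at hΛ
  obtain ⟨g, hg⟩ : ∃ g, g = Nat.size d := ⟨_, rfl⟩
  have hgd : d < 2 ^ g := by rw [hg]; exact Nat.lt_size_self d
  have hgg : g₀ + g1 + 1 < g := by
    have h1 : 2 ^ (g₀ + g1 + 1) < 2 ^ g := lt_of_le_of_lt hd hgd
    exact (Nat.pow_lt_pow_iff_right (by norm_num)).1 h1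
  have hd1 : 1 ≤ d := le_trans (Nat.one_le_two_pow) hd
  have hgd' : 2 ^ g ≤ 2 * d := by
    have h1 : g ≤ Nat.size d := hg.le
    have h2 : 2 ^ (g - 1) ≤ d := by
      apply Nat.lt_size.1
      omega
    calc 2 ^ g = 2 ^ (g - 1 + 1) := by rw [Nat.sub_add_cancel (by omega)]
      _ = 2 ^ (g - 1) * 2 := pow_succ _ _
      _ ≤ 2 * d := by omega
  have hp := hg1 g (by omega)
  -- the exponents
  obtain ⟨A, hA⟩ : ∃ A, A = g ^ κ * (2 * X + 1) + 1 + D := ⟨_, rfl⟩
  have hinf : ∀ w : InfinitePlace K, (1 / 2 : ℝ) ^ A ≤ w.1 (x ^ d - 1) := by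
    intro w
    by_cases hr : ∀ N : ℕ, 1 ≤ N → x ^ N ≠ 1
    · refine le_trans ?_ (inf_far (K := K) (fun φ x h1 h2 g d X h3 h4 h5 h6 =>
        hpow K hK φ x h1 h2 g d X h3 h4 h5 h6) w x hx0 hr g d X (by omega) hd1 hgd.le hX)
      rw [hA]
      exact pow_le_pow_of_le_one (by norm_num) (by norm_num) (Nat.le_add_right _ _)
    · push Not at hr
      obtain ⟨N, hN, hxN⟩ := hr
      refine le_trans ?_ (inf_root D hK hN hxN hroot w)
      rw [hA]
      exact pow_le_pow_of_le_one (by norm_num) (by norm_num) (Nat.le_add_left _ _)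
  have hfinp : ∀ v : HeightOneSpectrum (𝓞 K),
      (1 / 2 : ℝ) ^ (D * (g + 1) + Ideal.absNorm v.asIdeal * cD D * X) ≤ fv v (x ^ d - 1) := by
    intro v
    by_cases hr : ∀ N : ℕ, 1 ≤ N → x ^ N ≠ 1
    · exact fin_far D hK v x hr g d X hd1 hgd.le hX
    · push Not at hr
      obtain ⟨N, hN, hxN⟩ := hr
      refine le_trans ?_ (fin_root D hK hN hxN hroot v)
      apply pow_le_pow_of_le_one (by norm_num) (by norm_num)
      calc D = D * 1 := (mul_one D).symm
        _ ≤ D * (g + 1) := Nat.mul_le_mul_left _ (by omega)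
        _ ≤ _ := Nat.le_add_right _ _
  obtain ⟨E, hE⟩ : ∃ E, E = (A + c₁) * D + (S.card * (D * (g + 1) + c₁) + cD D * X * Q) := ⟨_, rfl⟩
  have hpos2 : (0 : ℝ) < 2 ^ c₁ := by positivity
  have hmain : (1 / 2 : ℝ) ^ E ≤ PP S fun w => min 1 (w (x ^ d - 1)) / 2 ^ c₁ := by
    rw [hE, pow_add]
    unfold PP
    apply mul_le_mul
    · calc (1 / 2 : ℝ) ^ ((A + c₁) * D) ≤ (1 / 2 : ℝ) ^ ((A + c₁) * Module.finrank ℚ K) :=
            pow_le_pow_of_le_one (by norm_num) (by norm_num) (Nat.mul_le_mul_left _ hK)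
        _ = ∏ w : InfinitePlace K, ((1 / 2 : ℝ) ^ (A + c₁)) ^ w.mult := by
            rw [Finset.prod_pow_eq_pow_sum, ← totalWeight_eq_sum_mult, totalWeight_eq_finrank,
              ← pow_mul]
        _ ≤ _ := by
            apply Finset.prod_le_prod (fun w _ => by positivity)
            intro w _
            apply pow_le_pow_left₀ (by positivity)
            rw [le_div_iff₀ hpos2, pow_add, mul_assoc, one_div (2 : ℝ), inv_pow _ c₁,
              inv_mul_cancel₀ hpos2.ne', mul_one]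
            refine le_min (pow_le_one₀ (by norm_num) (by norm_num)) ?_
            have := hinf w
            rw [one_div] at this
            exact this
    · calc (1 / 2 : ℝ) ^ (S.card * (D * (g + 1) + c₁) + cD D * X * Q)
          = ∏ v ∈ S, (1 / 2 : ℝ) ^ (D * (g + 1) + Ideal.absNorm v.asIdeal * cD D * X + c₁) := by
            rw [Finset.prod_pow_eq_pow_sum]
            congr 1
            rw [Finset.sum_add_distrib, Finset.sum_add_distrib, Finset.sum_const, Finset.sum_const,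
              hQ, Finset.mul_sum]
            simp only [smul_eq_mul]
            have : ∑ v ∈ S, Ideal.absNorm v.asIdeal * cD D * X =
                ∑ v ∈ S, cD D * X * Ideal.absNorm v.asIdeal :=
              Finset.sum_congr rfl fun v _ => by ring
            rw [this]
            ring
        _ ≤ _ := by
            apply Finset.prod_le_prod (fun v _ => by positivity)
            intro v _
            rw [le_div_iff₀ hpos2, pow_add, mul_assoc, one_div (2 : ℝ), inv_pow _ c₁,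
              inv_mul_cancel₀ hpos2.ne', mul_one]
            refine le_min (pow_le_one₀ (by norm_num) (by norm_num)) ?_
            have := hfinp v
            rw [one_div] at this
            exact this
    · exact pow_nonneg (by norm_num) _
    · exact Finset.prod_nonneg fun w _ => pow_nonneg (div_nonneg (le_min zero_le_one
        (w.1.nonneg _)) hpos2.le) _
  have hcard : S.card * (g + 1) ≤ D * (g + 2) * (g + 1) + Q := by
    rw [hQ]
    exact card_le_sum S D hK (g + 1)
  have hfin : L * E ≤ d * (X + 1) := by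
    have h1 : S.card * (D * (g + 1) + c₁) ≤ (D + c₁) * (D * (g + 2) * (g + 1) + Q) := by
      calc S.card * (D * (g + 1) + c₁) ≤ S.card * ((D + c₁) * (g + 1)) := by
            apply Nat.mul_le_mul_left
            nlinarith [Nat.zero_le (c₁ * g)]
        _ = (D + c₁) * (S.card * (g + 1)) := by ring
        _ ≤ _ := Nat.mul_le_mul_left _ hcard
    have h2 : (A + c₁) * D ≤ (X + 1) * (D * (2 * g ^ κ + (1 + D + c₁))) := by
      have h3 : A + c₁ ≤ (X + 1) * (2 * g ^ κ + (1 + D + c₁)) := by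
        rw [hA]
        nlinarith [Nat.zero_le (g ^ κ), Nat.zero_le (X * c₁)]
      calc (A + c₁) * D ≤ ((X + 1) * (2 * g ^ κ + (1 + D + c₁))) * D := Nat.mul_le_mul_right _ h3
        _ = _ := by ring
    have h4 : L * E ≤ (X + 1) * (L * D * (2 * g ^ κ + (1 + D + c₁)) +
        L * (D + c₁) * D * ((g + 2) * (g + 1))) + (X + 1) * (L * (D + c₁ + cD D) * Q) := by
      have h5 : E ≤ (X + 1) * (D * (2 * g ^ κ + (1 + D + c₁))) +
          ((D + c₁) * (D * (g + 2) * (g + 1) + Q) + cD D * X * Q) := by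
        rw [hE]
        exact Nat.add_le_add h2 (Nat.add_le_add_right h1 _)
      have h6 : (D + c₁) * (D * (g + 2) * (g + 1) + Q) + cD D * X * Q ≤
          (X + 1) * ((D + c₁) * D * ((g + 2) * (g + 1)) + (D + c₁ + cD D) * Q) := by
        have h7 : (D + c₁) * (D * (g + 2) * (g + 1) + Q) + cD D * X * Q +
            (X * ((D + c₁) * D * ((g + 2) * (g + 1))) + X * ((D + c₁) * Q) + cD D * Q) =
            (X + 1) * ((D + c₁) * D * ((g + 2) * (g + 1)) + (D + c₁ + cD D) * Q) := by ring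
        omega
      calc L * E ≤ L * ((X + 1) * (D * (2 * g ^ κ + (1 + D + c₁))) +
            (X + 1) * ((D + c₁) * D * ((g + 2) * (g + 1)) + (D + c₁ + cD D) * Q)) :=
            Nat.mul_le_mul_left _ (h5.trans (Nat.add_le_add_left h6 _))
        _ = _ := by ring
    have h8 : 2 * (L * D * (2 * g ^ κ + (1 + D + c₁)) +
        L * (D + c₁) * D * ((g + 2) * (g + 1))) ≤ d := by
      have h9 : 4 * (L * D) * (2 * g ^ κ + (1 + D + c₁)) +
          4 * (L * (D + c₁) * D) * ((g + 2) * (g + 1)) ≤ 2 * d := hp.trans hgd'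
      have h10 : 4 * (L * D) * (2 * g ^ κ + (1 + D + c₁)) +
          4 * (L * (D + c₁) * D) * ((g + 2) * (g + 1)) =
          2 * (2 * (L * D * (2 * g ^ κ + (1 + D + c₁)) + L * (D + c₁) * D * ((g + 2) * (g + 1)))) := by
        ring
      omega
    have h11 : 2 * (L * (D + c₁ + cD D) * Q) ≤ d := by
      have : 2 * (L * (D + c₁ + cD D) * Q) = 2 * (L * (D + c₁ + cD D)) * Q := by ring
      rw [this]
      exact hΛ
    generalize L * D * (2 * g ^ κ + (1 + D + c₁)) + L * (D + c₁) * D * ((g + 2) * (g + 1)) = U at *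
    generalize L * (D + c₁ + cD D) * Q = V at *
    have h12 : 2 * (L * E) ≤ 2 * (d * (X + 1)) := by
      calc 2 * (L * E) ≤ 2 * ((X + 1) * U + (X + 1) * V) := Nat.mul_le_mul_left _ h4
        _ = (X + 1) * (2 * U + 2 * V) := by ring
        _ ≤ (X + 1) * (d + d) := Nat.mul_le_mul_left _ (Nat.add_le_add h8 h11)
        _ = _ := by ring
    omega
  calc (1 / 2 : ℝ) ^ (d * (X + 1)) ≤ (1 / 2 : ℝ) ^ (L * E) :=
        pow_le_pow_of_le_one (by norm_num) (by norm_num) hfin
    _ = ((1 / 2 : ℝ) ^ E) ^ L := by rw [← pow_mul, mul_comm]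
    _ ≤ _ := pow_le_pow_left₀ (by positivity) hmain _

end Run7.h197.U
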