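import Pool.Agent.Run7.h197.U.Total
import Pool.Agent.Run7.h197.U.Gap

/-!
**Two solutions of `a y ^ d + b = s` with small `s`**
-/

set_option autoImplicit false

namespace Run7.h197.U

open Finset NumberField Height IsDedekindDomain
open Pool.Agent.H691R3

/-- the local inequality -/
lemma local_ineq {K : Type} [Field K] (w : AbsoluteValue K ℝ) {a b y z s t : K} (ha : a ≠ 0)
    (hy : y ≠ 0) {d : ℕ} (hs : a * y ^ d + b = s) (ht : a * z ^ d + b = t) (c₀ : ℕ) {σ : ℝ} (hσ : 1 ≤ σ)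
    (h1 : w s ≤ 2 ^ c₀ * σ) (h2 : w t ≤ 2 ^ c₀ * σ) :
    max (w b) 1 * (min 1 (w ((z / y) ^ d - 1)) / 2 ^ (c₀ + 2)) ≤ σ := by
  have hc : (1 : ℝ) ≤ 2 ^ c₀ := one_le_pow₀ (by norm_num)
  have hcpos : (0 : ℝ) < 2 ^ c₀ := by positivity
  have e4 : (2 : ℝ) ^ (c₀ + 2) = 4 * 2 ^ c₀ := by rw [pow_add]; ring
  rw [← mul_div_assoc, div_le_iff₀ (by positivity), e4]
  by_cases hb : w b ≤ 2 * (2 ^ c₀ * σ)
  · have h3 : max (w b) 1 ≤ 2 * (2 ^ c₀ * σ) := max_le hb (by nlinarith)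
    have h4 : 0 ≤ max (w b) 1 := le_trans zero_le_one (le_max_right _ _)
    calc max (w b) 1 * min 1 (w ((z / y) ^ d - 1)) ≤ max (w b) 1 * 1 :=
          mul_le_mul_of_nonneg_left (min_le_left _ _) h4
      _ ≤ 2 * (2 ^ c₀ * σ) := by rw [mul_one]; exact h3
      _ ≤ σ * (4 * 2 ^ c₀) := by nlinarith
  · push Not at hb
    have hb1 : 1 ≤ w b := by nlinarith
    have hay : a * y ^ d ≠ 0 := mul_ne_zero ha (pow_ne_zero _ hy)
    have h3 : w b ≤ w (a * y ^ d) + w s := by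
      have : b = -(a * y ^ d) + s := by rw [← hs]; ring
      calc w b = w (-(a * y ^ d) + s) := by rw [← this]
        _ ≤ w (-(a * y ^ d)) + w s := w.add_le _ _
        _ = _ := by rw [AbsoluteValue.map_neg]
    have h4 : w b / 2 ≤ w (a * y ^ d) := by linarith
    have h5 : w (a * y ^ d) * w ((z / y) ^ d - 1) ≤ 2 * (2 ^ c₀ * σ) := by
      have h6 : a * y ^ d * ((z / y) ^ d - 1) = t + -s := by
        rw [← hs, ← ht, div_pow]
        have := pow_ne_zero d hy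
        field_simp
        ring
      rw [← map_mul, h6]
      calc w (t + -s) ≤ w t + w (-s) := w.add_le _ _
        _ = w t + w s := by rw [AbsoluteValue.map_neg]
        _ ≤ _ := by linarith
    have h7 : 0 ≤ w ((z / y) ^ d - 1) := w.nonneg _
    rw [max_eq_left hb1]
    calc w b * min 1 (w ((z / y) ^ d - 1)) ≤ w b * w ((z / y) ^ d - 1) :=
          mul_le_mul_of_nonneg_left (min_le_right _ _) (by linarith)
      _ = 2 * ((w b / 2) * w ((z / y) ^ d - 1)) := by ring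
      _ ≤ 2 * (w (a * y ^ d) * w ((z / y) ^ d - 1)) := by
          apply mul_le_mul_of_nonneg_left _ (by norm_num)
          exact mul_le_mul_of_nonneg_right h4 h7
      _ ≤ 2 * (2 * (2 ^ c₀ * σ)) := mul_le_mul_of_nonneg_left h5 (by norm_num)
      _ = _ := by ring

/-- **two solutions with bounded right hand side** -/
theorem core (D M M₁ m e c₀ N : ℕ) (hM : 1 ≤ M) : ∃ d₀ Λ : ℕ, ∀ (K : Type) [Field K] [NumberField K],
    Module.finrank ℚ K ≤ D → ∀ (S : Finset (HeightOneSpectrum (𝓞 K))) (d : ℕ), d₀ ≤ d →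
    Λ * ∑ v ∈ S, Ideal.absNorm v.asIdeal ≤ d → ∀ (a b y z s t : K), a ≠ 0 → y ≠ 0 → z ≠ 0 →
    a * y ^ d + b = s → a * z ^ d + b = t → ∀ σ : AbsoluteValue K ℝ → ℝ, (∀ w, 1 ≤ σ w) →
    (∀ w, w s ≤ 2 ^ c₀ * σ w) → (∀ w, w t ≤ 2 ^ c₀ * σ w) → ∀ Y : ℝ, 1 ≤ Y → mulHeight₁ y ≤ Y →
    mulHeight₁ z ≤ Y → Y ^ d ≤ (2 ^ e * HS S b) ^ M₁ →
    PP S σ ^ M ≤ 2 ^ e * HS S b ^ (M - 1) * Y ^ m → z ^ d ≠ y ^ d → Y ^ N ≤ 2 := by
  classical
  obtain ⟨L', hL'⟩ : ∃ L', L' = 3 * M₁ + 6 * (M₁ * N) := ⟨_, rfl⟩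
  obtain ⟨d₀, Λ, hfar⟩ := far_total D (M * L') (c₀ + 2)
  refine ⟨d₀ + m * L' + (e * L' + 3 * M₁ * (e + 1)) + M₁ * N * (e + 1) * 2 + 1, Λ, ?_⟩
  intro K _ _ hK S d hd hΛ a b y z s t ha hy hz hs ht σ hσ h1 h2 Y hY1 hHy hHz hYd hσM hroot
  obtain ⟨Hb, hHb⟩ : ∃ Hb, Hb = HS S b := ⟨_, rfl⟩
  have hHb1 : 1 ≤ Hb := by rw [hHb]; exact one_le_HS S b
  rw [← hHb] at hYd hσM
  obtain ⟨n, hn1, hn2⟩ := exists_nat_pow_near hHb1 (by norm_num : (1 : ℝ) < 2)
  have hY0 : (0 : ℝ) ≤ Y := by linarith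
  have hYd2 : Y ^ d ≤ 2 ^ (M₁ * (e + n + 1)) := by
    calc Y ^ d ≤ (2 ^ e * Hb) ^ M₁ := hYd
      _ ≤ (2 ^ e * 2 ^ (n + 1)) ^ M₁ := by
          apply pow_le_pow_left₀ (by positivity)
          exact mul_le_mul_of_nonneg_left hn2.le (by positivity)
      _ = _ := by rw [← pow_add, ← pow_mul]; congr 1; ring
  have hu0 : z / y ≠ 0 := div_ne_zero hz hy
  have hur : (z / y) ^ d ≠ 1 := by
    intro h
    rw [div_pow, div_eq_one_iff_eq (pow_ne_zero _ hy)] at h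
    exact hroot h
  have hHu : mulHeight₁ (z / y) ≤ Y ^ 2 := by
    rw [div_eq_mul_inv]
    calc mulHeight₁ (z * y⁻¹) ≤ mulHeight₁ z * mulHeight₁ y⁻¹ := mulHeight₁_mul_le _ _
      _ = mulHeight₁ z * mulHeight₁ y := by rw [mulHeight₁_inv]
      _ ≤ Y * Y := mul_le_mul hHz hHy (mulHeight₁_nonneg _) hY0
      _ = _ := by ring
  obtain ⟨X, hX⟩ : ∃ X, X = 2 * (M₁ * (e + n + 1)) / d + 1 := ⟨_, rfl⟩
  have hd1 : 1 ≤ d := by omega
  have hX1 : 2 * (M₁ * (e + n + 1)) ≤ X * d := by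
    rw [hX, mul_comm _ d]
    exact (Nat.lt_mul_div_succ _ hd1).le
  have hX2 : d * X ≤ 2 * (M₁ * (e + n + 1)) + d := by
    rw [hX, mul_add, mul_one]
    exact Nat.add_le_add_right (Nat.mul_div_le _ _) _
  have hHX : mulHeight₁ (z / y) ≤ 2 ^ X := by
    have h3 : mulHeight₁ (z / y) ^ d ≤ (2 ^ X) ^ d := by
      calc mulHeight₁ (z / y) ^ d ≤ (Y ^ 2) ^ d := pow_le_pow_left₀ (mulHeight₁_nonneg _) hHu _
        _ = (Y ^ d) ^ 2 := by rw [← pow_mul, ← pow_mul, mul_comm]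
        _ ≤ (2 ^ (M₁ * (e + n + 1))) ^ 2 := pow_le_pow_left₀ (by positivity) hYd2 _
        _ = 2 ^ (2 * (M₁ * (e + n + 1))) := by rw [← pow_mul, mul_comm]
        _ ≤ 2 ^ (X * d) := pow_le_pow_right₀ (by norm_num) hX1
        _ = _ := pow_mul _ _ _
    exact (pow_le_pow_iff_left₀ (mulHeight₁_nonneg _) (by positivity) (by omega)).mp h3
  have hf := hfar K hK S d (by omega) hΛ (z / y) hu0 hur X hHX
  obtain ⟨F, hF⟩ : ∃ F : AbsoluteValue K ℝ → ℝ,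
    F = fun w => min 1 (w ((z / y) ^ d - 1)) / 2 ^ (c₀ + 2) := ⟨_, rfl⟩
  rw [← hF] at hf
  have hF0 : ∀ w, 0 ≤ F w := fun w => by
    rw [hF]
    exact div_nonneg (le_min zero_le_one (w.nonneg _)) (by positivity)
  have hPF0 : 0 ≤ PP S F := PP_nonneg S hF0
  have hloc : Hb * PP S F ≤ PP S σ := by
    rw [hHb]
    unfold HS
    rw [← PP_mul]
    apply PP_mono
    · intro w
      exact mul_nonneg (le_trans zero_le_one (le_max_right _ _)) (hF0 w)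
    · intro w
      rw [hF]
      exact local_ineq w ha hy hs ht c₀ (hσ w) (h1 w) (h2 w)
  have hHbM : 0 < Hb ^ (M - 1) := by positivity
  have h3 : Hb * PP S F ^ M ≤ 2 ^ e * Y ^ m := by
    have h4 : Hb ^ (M - 1) * (Hb * PP S F ^ M) ≤ Hb ^ (M - 1) * (2 ^ e * Y ^ m) := by
      calc Hb ^ (M - 1) * (Hb * PP S F ^ M) = (Hb * PP S F) ^ M := by
            have : Hb ^ M = Hb ^ (M - 1) * Hb := by
              rw [← pow_succ, Nat.sub_add_cancel hM]
            rw [mul_pow, this]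
            ring
        _ ≤ PP S σ ^ M := pow_le_pow_left₀ (mul_nonneg (by linarith) hPF0) hloc _
        _ ≤ 2 ^ e * Hb ^ (M - 1) * Y ^ m := hσM
        _ = _ := by ring
    exact le_of_mul_le_mul_left h4 hHbM
  have h5 : (2 : ℝ) ^ (n * L') ≤ 2 ^ (e * L' + M₁ * (e + n + 1) + d * (X + 1)) := by
    have h6 : (Hb * PP S F ^ M) ^ L' ≤ (2 ^ e * Y ^ m) ^ L' :=
      pow_le_pow_left₀ (mul_nonneg (by linarith) (pow_nonneg hPF0 _)) h3 _
    rw [mul_pow, ← pow_mul (PP S F), mul_pow, ← pow_mul, ← pow_mul] at h6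
    have h7 : Y ^ (m * L') ≤ 2 ^ (M₁ * (e + n + 1)) :=
      (pow_le_pow_right₀ hY1 (by omega)).trans hYd2
    have h8 : (2 : ℝ) ^ (n * L') * (1 / 2 : ℝ) ^ (d * (X + 1)) ≤
        2 ^ (e * L') * 2 ^ (M₁ * (e + n + 1)) := by
      calc (2 : ℝ) ^ (n * L') * (1 / 2 : ℝ) ^ (d * (X + 1)) ≤ Hb ^ L' * PP S F ^ (M * L') := by
            apply mul_le_mul _ hf (by positivity) (by positivity)
            rw [pow_mul]
            exact pow_le_pow_left₀ (by positivity) hn1 _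
        _ ≤ 2 ^ (e * L') * Y ^ (m * L') := h6
        _ ≤ _ := mul_le_mul_of_nonneg_left h7 (by positivity)
    have h9 : (1 / 2 : ℝ) ^ (d * (X + 1)) * 2 ^ (d * (X + 1)) = 1 := by
      rw [← mul_pow]
      norm_num
    calc (2 : ℝ) ^ (n * L') = (2 ^ (n * L') * (1 / 2 : ℝ) ^ (d * (X + 1))) * 2 ^ (d * (X + 1)) := by
          rw [mul_assoc, h9, mul_one]
      _ ≤ (2 ^ (e * L') * 2 ^ (M₁ * (e + n + 1))) * 2 ^ (d * (X + 1)) :=
          mul_le_mul_of_nonneg_right h8 (by positivity)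
      _ = _ := by rw [← pow_add, ← pow_add]
  have h10 : n * L' ≤ e * L' + M₁ * (e + n + 1) + d * (X + 1) := by
    by_contra hcon
    push Not at hcon
    have := pow_lt_pow_right₀ (by norm_num : (1 : ℝ) < 2) hcon
    linarith
  have h11 : n * (6 * (M₁ * N)) ≤ 3 * d := by
    have e1 : n * L' = 3 * (M₁ * n) + n * (6 * (M₁ * N)) := by rw [hL']; ring
    have e2 : M₁ * (e + n + 1) = M₁ * (e + 1) + M₁ * n := by ring
    have e3 : 3 * M₁ * (e + 1) = 3 * (M₁ * (e + 1)) := by ring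
    rw [e1, e2, Nat.mul_add d X 1, mul_one] at h10
    rw [e2] at hX2
    rw [e3] at hd
    generalize M₁ * n = q1 at *
    generalize M₁ * (e + 1) = q2 at *
    generalize e * L' = q3 at *
    generalize n * (6 * (M₁ * N)) = q4 at *
    generalize d * X = q5 at *
    omega
  have h12 : M₁ * N * (e + n + 1) ≤ d := by
    have e1 : M₁ * N * (e + n + 1) = M₁ * N * (e + 1) + n * (M₁ * N) := by ring
    have e2 : n * (6 * (M₁ * N)) = 6 * (n * (M₁ * N)) := by ring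
    rw [e1]
    rw [e2] at h11
    generalize n * (M₁ * N) = q1 at *
    generalize M₁ * N * (e + 1) = q2 at *
    omega
  have h13 : (Y ^ N) ^ d ≤ 2 ^ d := by
    calc (Y ^ N) ^ d = (Y ^ d) ^ N := by rw [← pow_mul, ← pow_mul, mul_comm]
      _ ≤ (2 ^ (M₁ * (e + n + 1))) ^ N := pow_le_pow_left₀ (by positivity) hYd2 _
      _ = 2 ^ (M₁ * N * (e + n + 1)) := by rw [← pow_mul]; congr 1; ring
      _ ≤ _ := pow_le_pow_right₀ (by norm_num) h12
  exact (pow_le_pow_iff_left₀ (by positivity) (by norm_num) (by omega)).mp h13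

end Run7.h197.U
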