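import Pool.Agent.Run7.h197.U.Poly

/-!
Counting roots of unity and preperiodic points; `S`-integers.
-/

set_option autoImplicit false

namespace Run7.h197.U

open Finset NumberField Height IsDedekindDomain Polynomial
open Pool.Agent.H691R3

/-- the roots of unity in `K` -/
def mu (K : Type) [Field K] : Set K := {ζ | ∃ n : ℕ, 1 ≤ n ∧ ζ ^ n = 1}

/-- the number of roots of unity is bounded in terms of the degree -/
theorem mu_bound (D : ℕ) : ∃ B : ℕ, ∀ (K : Type) [Field K] [NumberField K],
    Module.finrank ℚ K ≤ D → (mu K).encard ≤ B := by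
  classical
  have hfin := Pool.Agent.W180.TP.northcott_bdd ℂ D 0
  obtain ⟨U, hU⟩ : ∃ U : Set ℂ, U = {u : ℂ | ∃ (L : Type) (_ : Field L) (_ : NumberField L)
    (σ : L →+* ℂ) (u' : L), σ u' = u ∧ Module.finrank ℚ L ≤ D ∧ logHeight₁ u' ≤ 0} :=
    ⟨_, rfl⟩
  rw [← hU] at hfin
  refine ⟨hfin.toFinset.card, ?_⟩
  intro K _ _ hK
  obtain ⟨σ⟩ : Nonempty (K →+* ℂ) := inferInstance
  have h1 : σ '' (mu K) ⊆ U := by
    rintro _ ⟨ζ, ⟨n, hn, hζ⟩, rfl⟩
    rw [hU]
    refine ⟨K, inferInstance, inferInstance, σ, ζ, rfl, hK, ?_⟩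
    rw [logHeight₁_eq_log_mulHeight₁, height_root hn hζ, Real.log_one]
  calc (mu K).encard = (σ '' (mu K)).encard := (σ.injective.encard_image _).symm
    _ ≤ U.encard := Set.encard_le_encard h1
    _ = _ := by rw [hfin.encard_eq_coe_toFinset_card]

/-- the count in the two cases -/
theorem count {K : Type} [Field K] (P : Set K) {d : ℕ} (hd : 1 ≤ d)
    (h : (∀ y ∈ P, ∀ z ∈ P, y ^ d = z ^ d) ∨ (∀ y ∈ P, y = 0 ∨ ∃ n : ℕ, 1 ≤ n ∧ y ^ n = 1)) :
    P.encard ≤ (mu K).encard + 1 := by
  classical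
  rcases h with h | h
  · by_cases hy : ∃ y ∈ P, y ≠ 0
    · obtain ⟨y, hyP, hy0⟩ := hy
      have h1 : (fun z : K => z / y) '' P ⊆ mu K := by
        rintro _ ⟨z, hz, rfl⟩
        refine ⟨d, hd, ?_⟩
        rw [div_pow, h z hz y hyP, div_self (pow_ne_zero _ hy0)]
      have h2 : Function.Injective fun z : K => z / y := fun z z' hzz => by
        simpa [div_left_inj' hy0] using hzz
      calc P.encard = ((fun z : K => z / y) '' P).encard := (h2.encard_image _).symm
        _ ≤ (mu K).encard := Set.encard_le_encard h1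
        _ ≤ _ := le_self_add
    · push Not at hy
      have h1 : P ⊆ {0} := fun z hz => hy z hz
      calc P.encard ≤ ({0} : Set K).encard := Set.encard_le_encard h1
        _ = 1 := Set.encard_singleton _
        _ ≤ _ := le_add_self
  · have h1 : P ⊆ mu K ∪ {0} := by
      intro z hz
      rcases h z hz with h0 | h0
      · exact Or.inr h0
      · exact Or.inl h0
    calc P.encard ≤ (mu K ∪ {0}).encard := Set.encard_le_encard h1
      _ ≤ (mu K).encard + ({0} : Set K).encard := Set.encard_union_le _ _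
      _ = _ := by rw [Set.encard_singleton]

variable {K : Type} [Field K] [NumberField K]

/-- the height of an `S`-integer -/
theorem HS_of_integral (S : Finset (HeightOneSpectrum (𝓞 K))) (c : K)
    (hc : ∀ v ∉ S, FinitePlace.mk v c ≤ 1) : mulHeight₁ c = HS S c := by
  classical
  rw [NumberField.mulHeight₁_eq]
  unfold HS PP
  congr 1
  have h3 : ∏ v ∈ S, max (fv v c) 1 =
      ∏ w ∈ S.image (fun v => FinitePlace.mk v), max (w c) 1 := by
    rw [Finset.prod_image fun a _ b _ hab => FinitePlace.mk_eq_iff.mp hab]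
    rfl
  rw [h3]
  apply finprod_eq_prod_of_mulSupport_subset
  intro w hw
  rw [Function.mem_mulSupport] at hw
  rw [Finset.coe_image]
  refine ⟨w.maximalIdeal, ?_, FinitePlace.mk_maximalIdeal w⟩
  by_contra hcon
  apply hw
  have h4 := hc w.maximalIdeal hcon
  rw [FinitePlace.mk_maximalIdeal] at h4
  exact max_eq_right h4

end Run7.h197.U
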