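import Pool.Agent.Run7.h197.U.Pow
import Pool.Agent.Run7.h197.ST.PadicS
import Pool.Agent.H691R3.Rep
import Pool.Agent.H57R3.VJ.B

/-!
**The distance of a power from `1` at a finite place**, uniformly in all number fields of bounded
degree and in the place.
-/

set_option autoImplicit false

namespace Run7.h197.U

open Finset NumberField Height IsDedekindDomain
open Run7.h197.ST Run7.h197.PB Pool.Agent.H691R3

variable {K : Type} [Field K] [NumberField K]

/-- heights bound the finite absolute values -/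
lemma fv_le_height (v : HeightOneSpectrum (𝓞 K)) {x : K} (hx : x ≠ 0) : fv v x ≤ mulHeight₁ x := by
  have h1 := Pool.Agent.H57R3.VJ.prod_le_height hx {FinitePlace.mk v}
  rw [Finset.prod_singleton] at h1
  exact (le_max_left _ _).trans h1

/-- the height of a natural number -/
lemma height_nat {n : ℕ} (hn : 1 ≤ n) : mulHeight₁ (n : K) = (n : ℝ) ^ Module.finrank ℚ K := by
  classical
  rw [NumberField.mulHeight₁_eq]
  have h1 : ∏ᶠ v : FinitePlace K, max (v (n : K)) 1 = 1 := by
    apply finprod_eq_one_of_forall_eq_one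
    intro v
    apply max_eq_right
    have h : v ((n : 𝓞 K) : K) ≤ 1 := by
      rw [← FinitePlace.norm_embedding_eq]
      exact FinitePlace.norm_le_one _ _ (n : 𝓞 K)
    simpa using h
  rw [h1, mul_one, ← totalWeight_eq_finrank, totalWeight_eq_sum_mult, ← Finset.prod_pow_eq_pow_sum]
  apply Finset.prod_congr rfl
  intro w _
  congr 1
  rw [← InfinitePlace.norm_embedding_eq w, map_natCast, Complex.norm_natCast]
  apply max_eq_left
  exact_mod_cast hn

/-- lower bound for a natural number -/
lemma fv_nat (v : HeightOneSpectrum (𝓞 K)) {n : ℕ} (hn : 1 ≤ n) :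
    ((n : ℝ) ^ Module.finrank ℚ K)⁻¹ ≤ fv v (n : K) := by
  have hn0 : (n : K) ≠ 0 := Nat.cast_ne_zero.2 (by omega)
  have h1 := fv_le_height v (inv_ne_zero hn0)
  rw [mulHeight₁_inv, height_nat hn, map_inv₀] at h1
  have h2 : 0 < fv v (n : K) := (fv v).pos hn0
  have h3 : (0 : ℝ) < (n : ℝ) ^ Module.finrank ℚ K := by
    apply pow_pos
    exact_mod_cast hn
  rw [inv_le_comm₀ h3 h2]
  exact h1

/-- sums of small elements are small -/
lemma fv_sum_lt (v : HeightOneSpectrum (𝓞 K)) {ι : Type} (s : Finset ι) (f : ι → K) {r : ℝ}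
    (hr : 0 < r) (h : ∀ i ∈ s, fv v (f i) < r) : fv v (∑ i ∈ s, f i) < r := by
  classical
  induction s using Finset.induction_on with
  | empty =>
    rw [Finset.sum_empty, map_zero]
    exact hr
  | insert a s ha ih =>
    rw [Finset.sum_insert ha]
    refine (fv_na v _ _).trans_lt (max_lt (h a (Finset.mem_insert_self a s)) ?_)
    exact ih fun i hi => h i (Finset.mem_insert_of_mem hi)

lemma fv_natCast_le (v : HeightOneSpectrum (𝓞 K)) (n : ℕ) : fv v (n : K) ≤ 1 := by
  have := fv_int_le_one v (n : 𝓞 K)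
  simpa using this

/-- powers of an element close to `1` -/
lemma fv_pow_sub (v : HeightOneSpectrum (𝓞 K)) {w : K} (hw0 : w ≠ 0)
    (hw : fv v w < (1 / 2) ^ Module.finrank ℚ K) {d : ℕ} (hd : 1 ≤ d) :
    fv v (d : K) * fv v w ≤ fv v ((w + 1) ^ d - 1) := by
  classical
  obtain ⟨D, hD⟩ : ∃ D, D = Module.finrank ℚ K := ⟨_, rfl⟩
  rw [← hD] at hw
  have hw1 : 0 < fv v w := (fv v).pos hw0
  have hd0 : (d : K) ≠ 0 := Nat.cast_ne_zero.2 (by omega)
  have hd1 : 0 < fv v (d : K) := (fv v).pos hd0
  -- the terms of order at least two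
  have hterm : ∀ i, 2 ≤ i → fv v (w ^ i * ((d.choose i : ℕ) : K)) < fv v (d : K) * fv v w := by
    intro i hi
    have hi0 : (i : K) ≠ 0 := Nat.cast_ne_zero.2 (by omega)
    have hi1 : 0 < fv v (i : K) := (fv v).pos hi0
    have h1 : (i : K) * ((d.choose i : ℕ) : K) = (d : K) * (((d - 1).choose (i - 1) : ℕ) : K) := by
      have := Nat.add_one_mul_choose_eq (d - 1) (i - 1)
      rw [Nat.sub_add_cancel hd, Nat.sub_add_cancel (by omega : 1 ≤ i)] at this
      rw [← Nat.cast_mul, ← Nat.cast_mul, this, mul_comm i]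
    have h2 : fv v (i : K) * fv v ((d.choose i : ℕ) : K) ≤ fv v (d : K) := by
      rw [← map_mul, h1, map_mul]
      exact mul_le_of_le_one_right hd1.le (fv_natCast_le v _)
    have h3 : fv v w ^ (i - 1) < fv v (i : K) := by
      refine lt_of_lt_of_le ?_ (fv_nat v (by omega : 1 ≤ i))
      rw [← hD]
      calc fv v w ^ (i - 1) < ((1 / 2) ^ D) ^ (i - 1) :=
            pow_lt_pow_left₀ hw hw1.le (by omega)
        _ = (((2 : ℝ) ^ (i - 1)) ^ D)⁻¹ := by
            rw [← pow_mul, ← pow_mul, mul_comm D, one_div, inv_pow]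
        _ ≤ ((i : ℝ) ^ D)⁻¹ := by
            apply inv_anti₀
            · apply pow_pos
              exact_mod_cast (by omega : 0 < i)
            · apply pow_le_pow_left₀ (Nat.cast_nonneg _)
              have h5 : i ≤ 2 ^ (i - 1) := by
                have := Nat.lt_two_pow_self (n := i - 1)
                omega
              exact_mod_cast h5
    have h4 : fv v (i : K) * fv v (w ^ i * ((d.choose i : ℕ) : K)) <
        fv v (i : K) * (fv v (d : K) * fv v w) := by
      rw [map_mul, map_pow]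
      have h6 : fv v w ^ i = fv v w ^ (i - 1) * fv v w := by
        rw [← pow_succ, Nat.sub_add_cancel (by omega : 1 ≤ i)]
      calc fv v (i : K) * (fv v w ^ i * fv v ((d.choose i : ℕ) : K))
          = (fv v w ^ (i - 1) * fv v w) * (fv v (i : K) * fv v ((d.choose i : ℕ) : K)) := by
            rw [h6]; ring
        _ ≤ (fv v w ^ (i - 1) * fv v w) * fv v (d : K) :=
            mul_le_mul_of_nonneg_left h2 (by positivity)
        _ < (fv v (i : K) * fv v w) * fv v (d : K) := by
            apply mul_lt_mul_of_pos_right _ hd1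
            exact mul_lt_mul_of_pos_right h3 hw1
        _ = _ := by ring
    exact lt_of_mul_lt_mul_left h4 hi1.le
  have hexp : (w + 1) ^ d - 1 = (d : K) * w +
      ∑ i ∈ Finset.Ico 2 (d + 1), w ^ i * ((d.choose i : ℕ) : K) := by
    rw [add_pow]
    have h1 : ∑ i ∈ Finset.range (d + 1), w ^ i * 1 ^ (d - i) * ((d.choose i : ℕ) : K) =
        ∑ i ∈ Finset.range 2, w ^ i * ((d.choose i : ℕ) : K) +
          ∑ i ∈ Finset.Ico 2 (d + 1), w ^ i * ((d.choose i : ℕ) : K) := by
      rw [Finset.sum_range_add_sum_Ico _ (by omega : 2 ≤ d + 1)]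
      refine Finset.sum_congr rfl fun i _ => ?_
      rw [one_pow, mul_one]
    rw [h1, Finset.sum_range_succ, Finset.sum_range_one]
    simp only [pow_zero, Nat.choose_zero_right, Nat.cast_one, mul_one, pow_one, Nat.choose_one_right]
    ring
  have hrest : fv v (∑ i ∈ Finset.Ico 2 (d + 1), w ^ i * ((d.choose i : ℕ) : K)) <
      fv v (d : K) * fv v w :=
    fv_sum_lt v _ _ (mul_pos hd1 hw1) fun i hi => hterm i (Finset.mem_Ico.1 hi).1
  by_contra hcon
  push Not at hcon
  have h1 : (d : K) * w = ((w + 1) ^ d - 1) +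
      -(∑ i ∈ Finset.Ico 2 (d + 1), w ^ i * ((d.choose i : ℕ) : K)) := by
    rw [hexp]; ring
  have h2 : fv v ((d : K) * w) < fv v (d : K) * fv v w := by
    rw [h1]
    refine (fv_na v _ _).trans_lt (max_lt hcon ?_)
    rw [AbsoluteValue.map_neg]
    exact hrest
  rw [map_mul] at h2
  exact lt_irrefl _ h2

/-- the exponent which makes elements close to `1` -/
def cD (D : ℕ) : ℕ := ((2 ^ D).factorial) ^ D

lemma cD_pos (D : ℕ) : 1 ≤ cD D := Nat.one_le_pow _ _ (Nat.factorial_pos _)

omit [NumberField K] in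
lemma sub_pow_mem {I : Ideal (𝓞 K)} {A B : 𝓞 K} (h : A - B ∈ I) (m : ℕ) : A ^ m - B ^ m ∈ I := by
  obtain ⟨c, hc⟩ := sub_dvd_pow_sub_pow A B m
  rw [hc]
  exact Ideal.mul_mem_right _ _ h

/-- raising to a bounded multiple of the norm -/
lemma fv_pow_close (v : HeightOneSpectrum (𝓞 K)) {D : ℕ} (hD : Module.finrank ℚ K ≤ D) {x : K}
    (hx : fv v x = 1) :
    fv v (x ^ ((Ideal.absNorm v.asIdeal - 1) * cD D) - 1) < (1 / 2) ^ Module.finrank ℚ K := by
  classical
  have hx0 : x ≠ 0 := by
    rintro rfl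
    rw [map_zero] at hx
    exact zero_ne_one hx
  obtain ⟨a, b, hb, hab⟩ := exists_rep v hx.le
  have hbv : fv v (b : K) = 1 := fv_eq_one_of_notMem v hb
  have hb0 : (b : K) ≠ 0 := by
    intro h
    rw [h, map_zero] at hbv
    exact zero_ne_one hbv
  have hav : fv v (a : K) = 1 := by rw [← hab, map_mul, hx, hbv, mul_one]
  have ha : a ∉ v.asIdeal := by
    intro h
    have := (fv_lt_one_iff v).2 h
    linarith
  obtain ⟨q, hq⟩ : ∃ q, q = Ideal.absNorm v.asIdeal := ⟨_, rfl⟩
  obtain ⟨E, hE⟩ : ∃ E, E = (Ideal.absNorm v.asIdeal - 1) * cD D := ⟨_, rfl⟩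
  have hfr : a ^ (q - 1) - b ^ (q - 1) ∈ v.asIdeal := by
    have h1 := fermat v ha
    have h2 := fermat v hb
    rw [← hq] at h1 h2
    have := v.asIdeal.sub_mem h1 h2
    have e : a ^ (q - 1) - b ^ (q - 1) = (a ^ (q - 1) - 1) - (b ^ (q - 1) - 1) := by ring
    rwa [e]
  obtain ⟨p, hp, hpv⟩ := exists_prime_mem v
  have hNq : Nv v = q := by rw [hq]; rfl
  have key : fv v ((a ^ E - b ^ E : 𝓞 K) : K) < (1 / 2) ^ Module.finrank ℚ K := by
    have h2N := two_le_Nv v
    by_cases hpD : p ≤ 2 ^ D
    · have hdvd : p ^ D ∣ cD D := pow_dvd_pow_of_dvd (Nat.dvd_factorial hp.pos hpD) D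
      obtain ⟨c', hc'⟩ := hdvd
      have h1 := pow_p_mem v hpv hfr D
      have h2 := sub_pow_mem h1 c'
      have h3 : a ^ E - b ^ E ∈ v.asIdeal ^ (D + 1) := by
        have e1 : E = (q - 1) * p ^ D * c' := by rw [hE, hc', ← hq, mul_assoc]
        rw [e1, pow_mul, pow_mul, pow_mul b, pow_mul b]
        exact h2
      rw [← fv_le_pow_iff] at h3
      refine h3.trans_lt ?_
      rw [zpow_neg, zpow_natCast]
      calc (Nv v ^ (D + 1))⁻¹ ≤ ((2 : ℝ) ^ (D + 1))⁻¹ := by
            apply inv_anti₀ (by positivity)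
            exact pow_le_pow_left₀ (by norm_num) h2N _
        _ < ((2 : ℝ) ^ Module.finrank ℚ K)⁻¹ := by
            apply inv_strictAnti₀ (by positivity)
            exact pow_lt_pow_right₀ (by norm_num) (by omega)
        _ = _ := by rw [one_div, inv_pow]
    · push Not at hpD
      have h3 : a ^ E - b ^ E ∈ v.asIdeal ^ 1 := by
        rw [pow_one, hE, pow_mul, pow_mul b, ← hq]
        exact sub_pow_mem hfr _
      rw [← fv_le_pow_iff] at h3
      refine h3.trans_lt ?_
      rw [zpow_neg, zpow_natCast, pow_one, hNq]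
      have hpq : p ≤ q := by
        apply Nat.le_of_dvd
        · rw [hq]
          exact Nat.pos_of_ne_zero (by
            rw [Ne, Ideal.absNorm_eq_zero_iff]
            exact v.ne_bot)
        · by_contra hnd
          have hcop : Nat.Coprime p q := (Nat.Prime.coprime_iff_not_dvd hp).2 hnd
          have h5 : IsCoprime (p : ℤ) (q : ℤ) := Nat.isCoprime_iff_coprime.2 hcop
          obtain ⟨r, s, hrs⟩ := h5
          have h6 : (1 : 𝓞 K) ∈ v.asIdeal := by
            have h7 : ((r : 𝓞 K) * (p : 𝓞 K) + (s : 𝓞 K) * (q : 𝓞 K)) = 1 := by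
              exact_mod_cast congrArg (Int.cast : ℤ → 𝓞 K) hrs
            rw [← h7]
            apply v.asIdeal.add_mem
            · exact v.asIdeal.mul_mem_left _ hpv
            · apply v.asIdeal.mul_mem_left
              rw [hq]
              exact Ideal.absNorm_mem v.asIdeal
          exact v.isPrime.ne_top (v.asIdeal.eq_top_iff_one.2 h6)
      calc ((q : ℕ) : ℝ)⁻¹ ≤ ((p : ℕ) : ℝ)⁻¹ := by
            apply inv_anti₀
            · exact_mod_cast hp.pos
            · exact_mod_cast hpq
        _ < ((2 : ℝ) ^ D)⁻¹ := by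
            apply inv_strictAnti₀ (by positivity)
            exact_mod_cast hpD
        _ ≤ ((2 : ℝ) ^ Module.finrank ℚ K)⁻¹ := by
            apply inv_anti₀ (by positivity)
            exact pow_le_pow_right₀ (by norm_num) hD
        _ = _ := by rw [one_div, inv_pow]
  have e1 : x ^ E - 1 = ((a ^ E - b ^ E : 𝓞 K) : K) / (b : K) ^ E := by
    have : x = (a : K) / (b : K) := by rw [eq_div_iff hb0, hab]
    rw [this, div_pow]
    push_cast
    rw [sub_div, div_self (pow_ne_zero _ hb0)]
  rw [← hE, e1, map_div₀, map_pow, hbv, one_pow, div_one]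
  exact key

/-- **the distance of a power from `1`** -/
theorem fin_far (D : ℕ) (hK : Module.finrank ℚ K ≤ D) (v : HeightOneSpectrum (𝓞 K)) (x : K)
    (hroot : ∀ N : ℕ, 1 ≤ N → x ^ N ≠ 1) (g d X : ℕ) (hd : 1 ≤ d) (hdg : d ≤ 2 ^ g)
    (hX : mulHeight₁ x ≤ 2 ^ X) :
    (1 / 2 : ℝ) ^ (D * (g + 1) + Ideal.absNorm v.asIdeal * cD D * X) ≤ fv v (x ^ d - 1) := by
  classical
  have hle1 : (1 / 2 : ℝ) ^ (D * (g + 1) + Ideal.absNorm v.asIdeal * cD D * X) ≤ 1 :=
    pow_le_one₀ (by norm_num) (by norm_num)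
  have hone : fv v (1 : K) = 1 := map_one _
  rcases lt_trichotomy (fv v x) 1 with hlt | heq | hgt
  · refine hle1.trans ?_
    by_contra hcon
    push Not at hcon
    have h1 : (1 : K) = x ^ d + -(x ^ d - 1) := by ring
    have h2 : fv v (1 : K) < 1 := by
      rw [h1]
      refine (fv_na v _ _).trans_lt (max_lt ?_ ?_)
      · rw [map_pow]
        exact pow_lt_one₀ ((fv v).nonneg _) hlt (by omega)
      · rw [AbsoluteValue.map_neg]
        exact hcon
    linarith
  · obtain ⟨E, hE⟩ : ∃ E, E = (Ideal.absNorm v.asIdeal - 1) * cD D := ⟨_, rfl⟩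
    have hclose := fv_pow_close v hK heq
    rw [← hE] at hclose
    have hq2 : 2 ≤ Ideal.absNorm v.asIdeal := by
      have := two_le_Nv v
      have h3 : Nv v = (Ideal.absNorm v.asIdeal : ℝ) := rfl
      rw [h3] at this
      exact_mod_cast this
    have hE1 : 1 ≤ E := by
      rw [hE]
      exact Nat.mul_pos (by omega) (cD_pos D)
    have hw0 : x ^ E - 1 ≠ 0 := sub_ne_zero.2 (hroot E hE1)
    have h1 := fv_pow_sub v hw0 hclose hd
    rw [sub_add_cancel] at h1
    have h2 : fv v ((x ^ E) ^ d - 1) ≤ fv v (x ^ d - 1) := by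
      have e1 : (x ^ E) ^ d - 1 = (∑ i ∈ Finset.range E, (x ^ d) ^ i) * (x ^ d - 1) := by
        rw [← pow_mul, mul_comm E d, pow_mul, geom_sum_mul]
      rw [e1, map_mul]
      apply mul_le_of_le_one_left ((fv v).nonneg _)
      have h3 : ∀ s : Finset ℕ, fv v (∑ i ∈ s, (x ^ d) ^ i) ≤ 1 := by
        intro s
        induction s using Finset.induction_on with
        | empty =>
          rw [Finset.sum_empty, map_zero]
          exact zero_le_one
        | insert a s ha ih =>
          rw [Finset.sum_insert ha]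
          refine (fv_na v _ _).trans (max_le ?_ ih)
          rw [map_pow, map_pow, heq, one_pow, one_pow]
      exact h3 _
    refine le_trans ?_ (h1.trans h2)
    -- lower bounds of the factors
    have hdpos : (0 : ℝ) < d := by exact_mod_cast hd
    have h3 : (1 / 2 : ℝ) ^ (D * g) ≤ fv v (d : K) := by
      refine le_trans ?_ (fv_nat v hd)
      rw [one_div, inv_pow]
      apply inv_anti₀ (by positivity)
      calc (d : ℝ) ^ Module.finrank ℚ K ≤ ((2 : ℝ) ^ g) ^ Module.finrank ℚ K := by
            apply pow_le_pow_left₀ hdpos.le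
            exact_mod_cast hdg
        _ ≤ ((2 : ℝ) ^ g) ^ D := pow_le_pow_right₀ (one_le_pow₀ (by norm_num)) hK
        _ = _ := by rw [← pow_mul, mul_comm]
    have h4 : (1 / 2 : ℝ) ^ (D + Ideal.absNorm v.asIdeal * cD D * X) ≤ fv v (x ^ E - 1) := by
      have h5 := fv_le_height v (inv_ne_zero hw0)
      rw [mulHeight₁_inv, map_inv₀] at h5
      have h6 : 0 < fv v (x ^ E - 1) := (fv v).pos hw0
      have h7 : mulHeight₁ (x ^ E - 1) ≤ 2 ^ (D + Ideal.absNorm v.asIdeal * cD D * X) := by
        calc mulHeight₁ (x ^ E - 1) ≤ 2 ^ totalWeight K * mulHeight₁ (x ^ E) * mulHeight₁ (1 : K) :=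
              mulHeight₁_sub_le _ _
          _ = 2 ^ totalWeight K * mulHeight₁ x ^ E := by
              rw [mulHeight₁_one, mul_one, mulHeight₁_pow]
          _ ≤ 2 ^ D * (2 ^ X) ^ (Ideal.absNorm v.asIdeal * cD D) := by
              apply mul_le_mul
              · apply pow_le_pow_right₀ (by norm_num)
                rw [totalWeight_eq_finrank]
                exact hK
              · calc mulHeight₁ x ^ E ≤ (2 ^ X) ^ E := pow_le_pow_left₀ (mulHeight₁_nonneg _) hX _
                  _ ≤ (2 ^ X) ^ (Ideal.absNorm v.asIdeal * cD D) := by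
                      apply pow_le_pow_right₀ (one_le_pow₀ (by norm_num))
                      rw [hE]
                      exact Nat.mul_le_mul_right _ (Nat.sub_le _ _)
              · exact pow_nonneg (mulHeight₁_nonneg _) _
              · positivity
          _ = _ := by rw [← pow_mul, ← pow_add, mul_comm X]
      rw [one_div, inv_pow, inv_le_comm₀ (by positivity) h6]
      exact h5.trans h7
    calc (1 / 2 : ℝ) ^ (D * (g + 1) + Ideal.absNorm v.asIdeal * cD D * X)
        = (1 / 2 : ℝ) ^ (D * g) * (1 / 2 : ℝ) ^ (D + Ideal.absNorm v.asIdeal * cD D * X) := by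
          rw [← pow_add]
          congr 1
          ring
      _ ≤ _ := mul_le_mul h3 h4 (by positivity) ((fv v).nonneg _)
  · refine hle1.trans ?_
    by_contra hcon
    push Not at hcon
    have h1 : x ^ d = (x ^ d - 1) + 1 := by ring
    have h2 : fv v (x ^ d) ≤ 1 := by
      rw [h1]
      refine (fv_na v _ _).trans (max_le hcon.le ?_)
      rw [hone]
    rw [map_pow] at h2
    have h3 := one_lt_pow₀ hgt (by omega : d ≠ 0)
    linarith

end Run7.h197.U
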