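import Pool.Agent.Run7.h197.U.TInt

/-!
**Periodic points of bounded degree** of the maps `(x, y) ↦ (y, a y ^ d + g(y) - δ x)`.
-/

set_option autoImplicit false

namespace Run7.h197.U

open Finset NumberField Height IsDedekindDomain Polynomial

/-- the map `(x, y) ↦ (y, a y ^ d + g(y) - δ x)` on an extension -/
noncomputable def hen {K : Type} [Field K] (Ω : Type) [Field Ω] [Algebra K Ω] (a δ : K) (g : K[X])
    (d : ℕ) (P : Ω × Ω) : Ω × Ω :=
  (P.2, algebraMap K Ω a * P.2 ^ d + aeval P.2 g - algebraMap K Ω δ * P.1)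

/-- the periodic points over `K` of degree at most `B` -/
def PerB {K : Type} [Field K] (Ω : Type) [Field Ω] [Algebra K Ω] (a δ : K) (g : K[X]) (d B : ℕ) :
    Set (Ω × Ω) :=
  {P | (∃ n : ℕ, 1 ≤ n ∧ (hen Ω a δ g d)^[n] P = P) ∧
    Module.finrank K (IntermediateField.adjoin K ({P.1, P.2} : Set Ω)) ≤ B}

section Seq
variable {K : Type} [Field K] {Ω : Type} [Field Ω] [Algebra K Ω]

/-- the orbit of a periodic point gives a periodic sequence -/
lemma crd_of_per (a δ : K) (g : K[X]) (d : ℕ) (P : Ω × Ω) {n : ℕ} (hn : 1 ≤ n)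
    (hP : (hen Ω a δ g d)^[n] P = P) :
    P.1 ∈ Crd (algebraMap K Ω a) (algebraMap K Ω δ) (g.map (algebraMap K Ω)) d ∧
      P.2 ∈ Crd (algebraMap K Ω a) (algebraMap K Ω δ) (g.map (algebraMap K Ω)) d := by
  have hper : ∀ m, (hen Ω a δ g d)^[m + n] P = (hen Ω a δ g d)^[m] P := by
    intro m
    rw [Function.iterate_add_apply, hP]
  have h1 : ∀ m, ((hen Ω a δ g d)^[m + 1] P).1 = ((hen Ω a δ g d)^[m] P).2 := by
    intro m
    rw [Function.iterate_succ_apply']
    rfl
  have hrec : Rec (algebraMap K Ω a) (algebraMap K Ω δ) (g.map (algebraMap K Ω)) d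
      (fun m => ((hen Ω a δ g d)^[m] P).1) := by
    intro m
    show ((hen Ω a δ g d)^[m + 2] P).1 + algebraMap K Ω δ * ((hen Ω a δ g d)^[m] P).1 =
      algebraMap K Ω a * ((hen Ω a δ g d)^[m + 1] P).1 ^ d +
        (g.map (algebraMap K Ω)).eval ((hen Ω a δ g d)^[m + 1] P).1
    rw [h1 m, show m + 2 = (m + 1) + 1 by ring, h1 (m + 1), Function.iterate_succ_apply']
    show algebraMap K Ω a * ((hen Ω a δ g d)^[m] P).2 ^ d + aeval ((hen Ω a δ g d)^[m] P).2 g -
      algebraMap K Ω δ * ((hen Ω a δ g d)^[m] P).1 + algebraMap K Ω δ * ((hen Ω a δ g d)^[m] P).1 = _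
    rw [eval_map_algebraMap]
    ring
  refine ⟨⟨fun m => ((hen Ω a δ g d)^[m] P).1, ⟨hrec, n, hn, fun m => ?_⟩, rfl⟩,
    ⟨fun m => ((hen Ω a δ g d)^[m + 1] P).1, ⟨fun m => ?_, n, hn, fun m => ?_⟩, ?_⟩⟩
  · show ((hen Ω a δ g d)^[m + n] P).1 = _
    rw [hper]
  · have := hrec (m + 1)
    exact this
  · show ((hen Ω a δ g d)^[m + n + 1] P).1 = ((hen Ω a δ g d)^[m + 1] P).1
    rw [add_right_comm, hper]
  · exact h1 0

/-- descent of the orbit to a subfield -/
lemma hen_descent (L : IntermediateField K Ω) (a δ : K) (g : K[X]) (d : ℕ) (p : L × L) {n : ℕ}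
    (hP : (hen Ω a δ g d)^[n] ((p.1 : Ω), (p.2 : Ω)) = ((p.1 : Ω), (p.2 : Ω))) :
    (hen L a δ g d)^[n] p = p := by
  have hsemi : Function.Semiconj (fun q : L × L => (((q.1 : Ω), (q.2 : Ω)) : Ω × Ω))
      (hen L a δ g d) (hen Ω a δ g d) := by
    intro q
    unfold hen
    simp only [Prod.mk.injEq, true_and]
    push_cast
    congr 1
    congr 1
    exact (aeval_algebraMap_apply Ω q.2 g).symm
  have h := (hsemi.iterate_right n).eq p
  have h2 := h.trans hP
  simp only [Prod.mk.injEq, SetLike.coe_eq_coe] at h2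
  exact Prod.ext h2.1 h2.2

end Seq

/-- the coordinates of the points of a set -/
def coords {Ω : Type} (V : Set (Ω × Ω)) : Set Ω := {y | ∃ P ∈ V, y = P.1 ∨ y = P.2}

/-- the bound, which depends only on the degree -/
noncomputable def Cc (D : ℕ) : ℕ :=
  ((Pool.Agent.W180.TP.northcott_bdd ℂ D 0).toFinset.card + 1) *
    ((Pool.Agent.W180.TP.northcott_bdd ℂ D 0).toFinset.card + 1)

/-- two periodic points over a common field -/
lemma pair_field {K : Type} [Field K] [NumberField K] {D B M k κ : ℕ}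
    (h : ∀ (K : Type) [Field K] [NumberField K],
      Module.finrank ℚ K ≤ D * (B * B) → ∀ T d : ℕ, 1 ≤ T → (T + 1) ^ κ ≤ d → ∀ (a δ : K) (g : K[X]),
      a ≠ 0 → g.natDegree ≤ k → Dom M k T a δ g →
      (∀ y ∈ Crd a δ g d, ∀ z ∈ Crd a δ g d, y ^ d = z ^ d) ∨
        (∀ y ∈ Crd a δ g d, y = 0 ∨ ∃ n : ℕ, 1 ≤ n ∧ y ^ n = 1))
    (hK : Module.finrank ℚ K ≤ D) {T d : ℕ} (hT : 1 ≤ T) (hd : (T + 1) ^ κ ≤ d) {a δ : K} {g : K[X]}
    (ha : a ≠ 0) (hg : g.natDegree ≤ k) (hdom : Dom M k T a δ g)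
    (P P' : AlgebraicClosure K × AlgebraicClosure K) (hP : P ∈ PerB (AlgebraicClosure K) a δ g d B)
    (hP' : P' ∈ PerB (AlgebraicClosure K) a δ g d B) :
    ∃ (L : Type) (_ : Field L) (_ : NumberField L) (τ : L →+* AlgebraicClosure K),
      Module.finrank ℚ L ≤ D * (B * B) ∧ ∃ V : Set L,
        (∀ y, y = P.1 ∨ y = P.2 ∨ y = P'.1 ∨ y = P'.2 → ∃ y' ∈ V, τ y' = y) ∧
        ((∀ y ∈ V, ∀ z ∈ V, y ^ d = z ^ d) ∨ (∀ y ∈ V, y = 0 ∨ ∃ n : ℕ, 1 ≤ n ∧ y ^ n = 1)) := by
  classical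
  obtain ⟨⟨n, hn, hPn⟩, hPB⟩ := hP
  obtain ⟨⟨n', hn', hPn'⟩, hPB'⟩ := hP'
  let Ω := AlgebraicClosure K
  let E₁ : IntermediateField K Ω := IntermediateField.adjoin K ({P.1, P.2} : Set Ω)
  let E₂ : IntermediateField K Ω := IntermediateField.adjoin K ({P'.1, P'.2} : Set Ω)
  let L : IntermediateField K Ω := E₁ ⊔ E₂
  have hfin : ∀ s : Set Ω, s.Finite → FiniteDimensional K (IntermediateField.adjoin K s) := by
    intro s hs
    have : Finite s := hs.to_subtype
    exact IntermediateField.finiteDimensional_adjoin fun x _ => Algebra.IsIntegral.isIntegral x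
  have hf1 : FiniteDimensional K E₁ := hfin _ (Set.toFinite _)
  have hf2 : FiniteDimensional K E₂ := hfin _ (Set.toFinite _)
  have hfL : FiniteDimensional K L := IntermediateField.finiteDimensional_sup E₁ E₂
  have hNF : NumberField L := NumberField.of_module_finite K L
  have hdeg : Module.finrank K L ≤ B * B :=
    (IntermediateField.finrank_sup_le E₁ E₂).trans (Nat.mul_le_mul hPB hPB')
  have hdegQ : Module.finrank ℚ L ≤ D * (B * B) := by
    rw [← Module.finrank_mul_finrank ℚ K L]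
    exact Nat.mul_le_mul hK hdeg
  have hm1 : ∀ x ∈ ({P.1, P.2} : Set Ω), x ∈ L := fun x hx =>
    (le_sup_left : E₁ ≤ L) (IntermediateField.subset_adjoin K _ hx)
  have hm2 : ∀ x ∈ ({P'.1, P'.2} : Set Ω), x ∈ L := fun x hx =>
    (le_sup_right : E₂ ≤ L) (IntermediateField.subset_adjoin K _ hx)
  let p : L × L := (⟨P.1, hm1 _ (by simp)⟩, ⟨P.2, hm1 _ (by simp)⟩)
  let p' : L × L := (⟨P'.1, hm2 _ (by simp)⟩, ⟨P'.2, hm2 _ (by simp)⟩)
  have hp : (hen L a δ g d)^[n] p = p := hen_descent L a δ g d p hPn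
  have hp' : (hen L a δ g d)^[n'] p' = p' := hen_descent L a δ g d p' hPn'
  have hc := crd_of_per (Ω := L) a δ g d p hn hp
  have hc' := crd_of_per (Ω := L) a δ g d p' hn' hp'
  refine ⟨L, inferInstance, hNF, (algebraMap L Ω), hdegQ,
    Crd (algebraMap K L a) (algebraMap K L δ) (g.map (algebraMap K L)) d, ?_, ?_⟩
  · rintro y (rfl | rfl | rfl | rfl)
    · exact ⟨p.1, hc.1, rfl⟩
    · exact ⟨p.2, hc.2, rfl⟩
    · exact ⟨p'.1, hc'.1, rfl⟩
    · exact ⟨p'.2, hc'.2, rfl⟩
  · apply h L hdegQ T d hT hd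
    · rw [Ne, map_eq_zero]
      exact ha
    · exact natDegree_map_le.trans hg
    · exact hdom.map L

/-- **the number of periodic points of bounded degree** -/
theorem henon_main (D B M k : ℕ) (hM : 1 ≤ M) : ∃ κ : ℕ, ∀ (K : Type) [Field K] [NumberField K],
    Module.finrank ℚ K ≤ D → ∀ T d : ℕ, 1 ≤ T → (T + 1) ^ κ ≤ d → ∀ (a δ : K) (g : K[X]), a ≠ 0 →
    g.natDegree ≤ k → Dom M k T a δ g →
    (PerB (AlgebraicClosure K) a δ g d B).encard ≤ Cc (D * (B * B)) ∧
      ((∀ y ∈ coords (PerB (AlgebraicClosure K) a δ g d B),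
        ∀ z ∈ coords (PerB (AlgebraicClosure K) a δ g d B), y ^ d = z ^ d) ∨
        (∀ y ∈ coords (PerB (AlgebraicClosure K) a δ g d B), y = 0 ∨ ∃ n : ℕ, 1 ≤ n ∧ y ^ n = 1)) := by
  classical
  obtain ⟨κ, h⟩ := seq_TInt (D * (B * B)) M k hM
  refine ⟨κ, ?_⟩
  intro K _ _ hK T d hT hd a δ g ha hg hdom
  have hfin := Pool.Agent.W180.TP.northcott_bdd ℂ (D * (B * B)) 0
  obtain ⟨U, hU⟩ : ∃ U : Set ℂ, U = {u : ℂ | ∃ (L : Type) (_ : Field L) (_ : NumberField L)
    (σ : L →+* ℂ) (u' : L), σ u' = u ∧ Module.finrank ℚ L ≤ D * (B * B) ∧ logHeight₁ u' ≤ 0} :=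
    ⟨_, rfl⟩
  have hd1 : 1 ≤ d := le_trans (Nat.one_le_pow _ _ (by omega)) hd
  obtain ⟨φ⟩ : Nonempty (K →+* ℂ) := inferInstance
  let _ : Algebra K ℂ := φ.toAlgebra
  let σ : AlgebraicClosure K →+* ℂ := (IsAlgClosed.lift : AlgebraicClosure K →ₐ[K] ℂ).toRingHom
  obtain ⟨Q, hQ⟩ : ∃ Q : Set (AlgebraicClosure K), Q = coords (PerB (AlgebraicClosure K) a δ g d B) :=
    ⟨_, rfl⟩
  rw [← hQ]
  have hpair : ∀ y ∈ Q, ∀ z ∈ Q, ∃ (L : Type) (_ : Field L) (_ : NumberField L)
      (τ : L →+* AlgebraicClosure K) (y' z' : L), Module.finrank ℚ L ≤ D * (B * B) ∧ τ y' = y ∧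
      τ z' = z ∧ (y' ^ d = z' ^ d ∨ ((y' = 0 ∨ ∃ n : ℕ, 1 ≤ n ∧ y' ^ n = 1) ∧
        (z' = 0 ∨ ∃ n : ℕ, 1 ≤ n ∧ z' ^ n = 1))) := by
    intro y hy z hz
    rw [hQ] at hy hz
    obtain ⟨P, hP, hyP⟩ := hy
    obtain ⟨P', hP', hzP⟩ := hz
    obtain ⟨L, _, _, τ, hL, V, hV, hdi⟩ := pair_field h hK hT hd ha hg hdom P P' hP hP'
    obtain ⟨y', hy', hyy⟩ := hV y (by rcases hyP with h | h <;> simp [h])
    obtain ⟨z', hz', hzz⟩ := hV z (by rcases hzP with h | h <;> simp [h])
    refine ⟨L, inferInstance, inferInstance, τ, y', z', hL, hyy, hzz, ?_⟩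
    rcases hdi with h1 | h1
    · exact Or.inl (h1 y' hy' z' hz')
    · exact Or.inr ⟨h1 y' hy', h1 z' hz'⟩
  refine ⟨?_, ?_⟩
  swap
  · by_cases hex : ∀ y ∈ Q, y = 0 ∨ ∃ n : ℕ, 1 ≤ n ∧ y ^ n = 1
    · exact Or.inr hex
    · push Not at hex
      obtain ⟨y, hy, hy0, hyn⟩ := hex
      left
      have key : ∀ z ∈ Q, z ^ d = y ^ d := by
        intro z hz
        obtain ⟨L, _, _, τ, y', z', hL, hyy, hzz, hdi⟩ := hpair y hy z hz
        have hyz : y' ^ d = z' ^ d := by
          rcases hdi with h1 | ⟨h1, -⟩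
          · exact h1
          · exfalso
            rcases h1 with h2 | ⟨n, hn, h2⟩
            · apply hy0
              rw [← hyy, h2, map_zero]
            · apply hyn n hn
              rw [← hyy, ← map_pow, h2, map_one]
        rw [← hyy, ← hzz, ← map_pow, ← map_pow, hyz]
      intro u hu z hz
      rw [key u hu, key z hz]
  have hQcard : Q.encard ≤ (hfin.toFinset.card + 1 : ℕ) := by
    have hUcard : U.encard = (hfin.toFinset.card : ℕ) := by
      rw [hU, hfin.encard_eq_coe_toFinset_card]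
    by_cases hex : ∃ y ∈ Q, ¬ (y = 0 ∨ ∃ n : ℕ, 1 ≤ n ∧ y ^ n = 1)
    · obtain ⟨y, hy, hyn⟩ := hex
      have hy0 : y ≠ 0 := fun h0 => hyn (Or.inl h0)
      have h1 : (fun z => σ (z / y)) '' Q ⊆ U := by
        rintro _ ⟨z, hz, rfl⟩
        obtain ⟨L, _, _, τ, y', z', hL, hyy, hzz, hdi⟩ := hpair y hy z hz
        have hy'0 : y' ≠ 0 := by
          rintro rfl
          apply hy0
          rw [← hyy, map_zero]
        have hyz : y' ^ d = z' ^ d := by
          rcases hdi with h1 | ⟨h1, -⟩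
          · exact h1
          · exfalso
            rcases h1 with h2 | ⟨n, hn, h2⟩
            · exact hy'0 h2
            · apply hyn
              right
              refine ⟨n, hn, ?_⟩
              rw [← hyy, ← map_pow, h2, map_one]
        have hroot : (z' / y') ^ d = 1 := by
          rw [div_pow, hyz, div_self]
          rw [← hyz]
          exact pow_ne_zero _ hy'0
        rw [hU]
        refine ⟨L, inferInstance, inferInstance, σ.comp τ, z' / y', ?_, hL, ?_⟩
        · rw [RingHom.comp_apply, map_div₀, hyy, hzz]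
        · rw [logHeight₁_eq_log_mulHeight₁, height_root hd1 hroot, Real.log_one]
      have h2 : Function.Injective fun z : AlgebraicClosure K => σ (z / y) := fun z z' hzz => by
        have := σ.injective hzz
        simpa [div_left_inj' hy0] using this
      calc Q.encard = ((fun z => σ (z / y)) '' Q).encard := (h2.encard_image _).symm
        _ ≤ U.encard := Set.encard_le_encard h1
        _ = (hfin.toFinset.card : ℕ) := hUcard
        _ ≤ _ := by exact_mod_cast Nat.le_succ _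
    · push Not at hex
      have h1 : σ '' Q ⊆ U ∪ {0} := by
        rintro _ ⟨z, hz, rfl⟩
        by_cases hz0 : z = 0
        · right
          rw [hz0, map_zero]
          rfl
        left
        obtain ⟨L, _, _, τ, y', z', hL, hyy, hzz, -⟩ := hpair z hz z hz
        rcases hex z hz with h2 | ⟨n, hn, h2⟩
        · exact absurd h2 hz0
        have hroot : z' ^ n = 1 := by
          apply τ.injective
          rw [map_pow, hzz, h2, map_one]
        rw [hU]
        refine ⟨L, inferInstance, inferInstance, σ.comp τ, z', ?_, hL, ?_⟩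
        · rw [RingHom.comp_apply, hzz]
        · rw [logHeight₁_eq_log_mulHeight₁, height_root hn hroot, Real.log_one]
      calc Q.encard = (σ '' Q).encard := (σ.injective.encard_image _).symm
        _ ≤ (U ∪ {0}).encard := Set.encard_le_encard h1
        _ ≤ U.encard + ({0} : Set ℂ).encard := Set.encard_union_le _ _
        _ = (hfin.toFinset.card + 1 : ℕ) := by
            rw [hUcard, Set.encard_singleton]
            norm_num
  have hQfin : Q.Finite := Set.finite_of_encard_le_coe hQcard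
  have hQc : hQfin.toFinset.card ≤ hfin.toFinset.card + 1 := by
    rw [hQfin.encard_eq_coe_toFinset_card] at hQcard
    exact_mod_cast hQcard
  have hsub : PerB (AlgebraicClosure K) a δ g d B ⊆
      ((hQfin.toFinset ×ˢ hQfin.toFinset : Finset _) : Set _) := by
    intro P hP
    rw [Finset.coe_product, Set.mem_prod, Set.Finite.coe_toFinset, hQ]
    exact ⟨⟨P, hP, Or.inl rfl⟩, ⟨P, hP, Or.inr rfl⟩⟩
  calc (PerB (AlgebraicClosure K) a δ g d B).encard
      ≤ ((hQfin.toFinset ×ˢ hQfin.toFinset : Finset _) : Set _).encard := Set.encard_le_encard hsub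
    _ = ((hQfin.toFinset.card * hQfin.toFinset.card : ℕ) : ℕ∞) := by
        rw [Set.encard_coe_eq_coe_finsetCard, Finset.card_product]
    _ ≤ _ := by
        unfold Cc
        exact_mod_cast Nat.mul_le_mul hQc hQc

end Run7.h197.U
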