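import Pool.Agent.Run7.h197.U.Core

/-!
**Preperiodic points of `a z ^ d + g(z)`** where the constant term of `g` dominates at the
archimedean places and at the places in `S`.
-/

set_option autoImplicit false

namespace Run7.h197.U

open Finset NumberField Height IsDedekindDomain Polynomial
open Pool.Agent.H691R3

variable {K : Type} [Field K]

/-- the polynomial map `z ↦ a z ^ d + g(z)` -/
noncomputable def pm (a : K) (g : K[X]) (d : ℕ) (z : K) : K := a * z ^ d + g.eval z

/-- the elements with finite forward orbit -/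
def PrePer (f : K → K) : Set K := {z | (Set.range fun n : ℕ => f^[n] z).Finite}

/-- the higher part of `g` -/
lemma eval_split (g : K[X]) (k : ℕ) (hg : g.natDegree ≤ k) (z : K) :
    g.eval z = g.coeff 0 + ∑ j ∈ Finset.range k, g.coeff (j + 1) * z ^ (j + 1) := by
  rw [Polynomial.eval_eq_sum_range' (n := k + 1) (by omega), Finset.sum_range_succ']
  rw [pow_zero, mul_one, add_comm]

variable [NumberField K]

/-- the height of a sum -/
lemma height_sum {ι : Type} (s : Finset ι) (x : ι → K) :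
    mulHeight₁ (∑ i ∈ s, x i) ≤ 2 ^ (totalWeight K * s.card) * ∏ i ∈ s, mulHeight₁ (x i) := by
  classical
  induction s using Finset.induction_on with
  | empty =>
    simp
  | insert a s ha ih =>
    rw [Finset.sum_insert ha, Finset.prod_insert ha, Finset.card_insert_of_notMem ha]
    calc mulHeight₁ (x a + ∑ i ∈ s, x i) ≤
          2 ^ totalWeight K * mulHeight₁ (x a) * mulHeight₁ (∑ i ∈ s, x i) := mulHeight₁_add_le _ _
      _ ≤ 2 ^ totalWeight K * mulHeight₁ (x a) *
          (2 ^ (totalWeight K * s.card) * ∏ i ∈ s, mulHeight₁ (x i)) := by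
          apply mul_le_mul_of_nonneg_left ih
          exact mul_nonneg (by positivity) (mulHeight₁_nonneg _)
      _ = _ := by
          rw [mul_add, mul_one, pow_add]
          ring

/-- heights of preperiodic points -/
lemma orbit_height (D M k d : ℕ) (hM : 1 ≤ M) (hD : Module.finrank ℚ K ≤ D)
    (hd : 2 * (k * (k + 1) + 1) ≤ d) (a : K) (ha : a ≠ 0) (g : K[X]) (hg : g.natDegree ≤ k)
    {B : ℝ} (hB : 1 ≤ B)
    (h : mulHeight₁ a * ∏ j ∈ Finset.range (k + 1), mulHeight₁ (g.coeff j) ≤ B ^ M) (x : K)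
    (hx : x ∈ PrePer (pm a g d)) :
    ∃ Y : ℝ, 1 ≤ Y ∧ (∀ n : ℕ, mulHeight₁ ((pm a g d)^[n] x) ≤ Y) ∧
      Y ^ d ≤ (2 ^ (D * (k + 2)) * B) ^ (2 * M) := by
  classical
  obtain ⟨f, hf⟩ : ∃ f, f = pm a g d := ⟨_, rfl⟩
  have hfin : (Set.range fun n : ℕ => f^[n] x).Finite := by rw [hf]; exact hx
  rw [← hf]
  obtain ⟨o, ho, hmax⟩ := Set.exists_max_image (Set.range fun n : ℕ => f^[n] x)
    (fun z => mulHeight₁ z) hfin ⟨f^[0] x, 0, rfl⟩
  obtain ⟨n, rfl⟩ := ho
  obtain ⟨o, ho⟩ : ∃ o, o = f^[n] x := ⟨_, rfl⟩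
  have hmax' : ∀ n' : ℕ, mulHeight₁ (f^[n'] x) ≤ mulHeight₁ o := by
    intro n'
    rw [ho]
    exact hmax _ ⟨n', rfl⟩
  obtain ⟨Y, hY⟩ : ∃ Y, Y = mulHeight₁ o := ⟨_, rfl⟩
  have hY1 : 1 ≤ Y := by rw [hY]; exact one_le_mulHeight₁ _
  have hY0 : 0 ≤ Y := by linarith
  refine ⟨Y, hY1, fun n' => by rw [hY]; exact hmax' n', ?_⟩
  have hfo : mulHeight₁ (f o) ≤ Y := by
    have := hmax' (n + 1)
    rw [Function.iterate_succ_apply', ← ho] at this
    rw [hY]
    exact this
  have htw : totalWeight K ≤ D := by rw [totalWeight_eq_finrank]; exact hD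
  -- the height of the values of `g`
  have hgo : mulHeight₁ (g.eval o) ≤ 2 ^ (D * (k + 1)) *
      ((∏ j ∈ Finset.range (k + 1), mulHeight₁ (g.coeff j)) * Y ^ (k * (k + 1))) := by
    rw [Polynomial.eval_eq_sum_range' (n := k + 1) (by omega)]
    refine (height_sum _ _).trans ?_
    rw [Finset.card_range]
    apply mul_le_mul
    · exact pow_le_pow_right₀ (by norm_num) (Nat.mul_le_mul_right _ htw)
    · have h1 : ∀ j ∈ Finset.range (k + 1), mulHeight₁ (g.coeff j * o ^ j) ≤
          mulHeight₁ (g.coeff j) * Y ^ k := by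
        intro j hj
        rw [Finset.mem_range] at hj
        refine (mulHeight₁_mul_le _ _).trans ?_
        apply mul_le_mul_of_nonneg_left _ (mulHeight₁_nonneg _)
        rw [mulHeight₁_pow, ← hY]
        exact pow_le_pow_right₀ hY1 (by omega)
      refine (Finset.prod_le_prod (fun j _ => mulHeight₁_nonneg _) h1).trans ?_
      rw [Finset.prod_mul_distrib, Finset.prod_const, Finset.card_range, ← pow_mul]
    · exact Finset.prod_nonneg fun j _ => mulHeight₁_nonneg _
    · positivity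
  have hP0 : 0 ≤ ∏ j ∈ Finset.range (k + 1), mulHeight₁ (g.coeff j) :=
    Finset.prod_nonneg fun j _ => mulHeight₁_nonneg _
  have h1 : Y ^ d ≤ 2 ^ (D * (k + 2)) * B ^ M * Y ^ (k * (k + 1) + 1) := by
    have e1 : o ^ d = a⁻¹ * (f o - g.eval o) := by
      rw [hf]
      unfold pm
      field_simp
      ring
    calc Y ^ d = mulHeight₁ (o ^ d) := by rw [mulHeight₁_pow, hY]
      _ = mulHeight₁ (a⁻¹ * (f o - g.eval o)) := by rw [e1]
      _ ≤ mulHeight₁ a⁻¹ * mulHeight₁ (f o - g.eval o) := mulHeight₁_mul_le _ _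
      _ ≤ mulHeight₁ a * (2 ^ D * Y * (2 ^ (D * (k + 1)) *
          ((∏ j ∈ Finset.range (k + 1), mulHeight₁ (g.coeff j)) * Y ^ (k * (k + 1))))) := by
          rw [mulHeight₁_inv]
          apply mul_le_mul_of_nonneg_left _ (mulHeight₁_nonneg _)
          refine (mulHeight₁_sub_le _ _).trans ?_
          apply mul_le_mul _ hgo (mulHeight₁_nonneg _) (by positivity)
          exact mul_le_mul (pow_le_pow_right₀ (by norm_num) htw) hfo (mulHeight₁_nonneg _)
            (by positivity)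
      _ = 2 ^ (D * (k + 2)) * (mulHeight₁ a *
          ∏ j ∈ Finset.range (k + 1), mulHeight₁ (g.coeff j)) * Y ^ (k * (k + 1) + 1) := by
          rw [pow_succ Y, show D * (k + 2) = D + D * (k + 1) by ring, pow_add]
          ring
      _ ≤ _ := by
          apply mul_le_mul_of_nonneg_right _ (by positivity)
          exact mul_le_mul_of_nonneg_left h (by positivity)
  obtain ⟨q, hq⟩ : ∃ q, q = k * (k + 1) + 1 := ⟨_, rfl⟩
  rw [← hq] at h1 hd
  have h2 : (Y ^ d) ^ 2 ≤ (2 ^ (D * (k + 2)) * B ^ M) ^ 2 * Y ^ d := by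
    calc (Y ^ d) ^ 2 ≤ (2 ^ (D * (k + 2)) * B ^ M * Y ^ q) ^ 2 :=
          pow_le_pow_left₀ (by positivity) h1 _
      _ = (2 ^ (D * (k + 2)) * B ^ M) ^ 2 * Y ^ (2 * q) := by
          rw [mul_pow, ← pow_mul, mul_comm q 2]
      _ ≤ _ := by
          apply mul_le_mul_of_nonneg_left _ (by positivity)
          exact pow_le_pow_right₀ hY1 hd
  have h3 : Y ^ d ≤ (2 ^ (D * (k + 2)) * B ^ M) ^ 2 := by
    have h4 : 0 < Y ^ d := by positivity
    have h5 : Y ^ d * Y ^ d ≤ (2 ^ (D * (k + 2)) * B ^ M) ^ 2 * Y ^ d := by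
      rw [← sq]
      exact h2
    exact le_of_mul_le_mul_right h5 h4
  refine h3.trans ?_
  obtain ⟨C, hC⟩ : ∃ C : ℝ, C = 2 ^ (D * (k + 2)) := ⟨_, rfl⟩
  have hC1 : 1 ≤ C := by rw [hC]; exact one_le_pow₀ (by norm_num)
  rw [← hC, mul_comm 2 M, pow_mul (C * B)]
  apply pow_le_pow_left₀ (by positivity)
  rw [mul_pow]
  apply mul_le_mul_of_nonneg_right _ (by positivity)
  exact le_self_pow₀ hC1 (by omega)

/-- a natural number as a bound for a sum -/
lemma le_two_pow_cast (k : ℕ) : ((k : ℝ) + 1) ≤ 2 ^ (k + 1) := by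
  have h : k + 1 ≤ 2 ^ (k + 1) := Nat.lt_two_pow_self.le
  exact_mod_cast h

omit [NumberField K] in
/-- the remainder is small -/
lemma rem_le (w : AbsoluteValue K ℝ) (a : K) (g : K[X]) (k d : ℕ) (hg : g.natDegree ≤ k) (y : K) :
    w (a * y ^ d + g.coeff 0) ≤ 2 ^ (k + 1) * ((∏ j ∈ Finset.range k, max (w (g.coeff (j + 1))) 1) *
      max (w y) 1 ^ k * max (w (pm a g d y)) 1) := by
  classical
  obtain ⟨G, hG⟩ : ∃ G, G = ∏ j ∈ Finset.range k, max (w (g.coeff (j + 1))) 1 := ⟨_, rfl⟩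
  have hG1 : 1 ≤ G := by
    rw [hG]
    exact Finset.one_le_prod fun j _ => le_max_right _ _
  have hGj : ∀ j ∈ Finset.range k, w (g.coeff (j + 1)) ≤ G := by
    intro j hj
    rw [hG, ← Finset.mul_prod_erase _ _ hj]
    calc w (g.coeff (j + 1)) ≤ max (w (g.coeff (j + 1))) 1 * 1 := by
          rw [mul_one]; exact le_max_left _ _
      _ ≤ _ := by
          apply mul_le_mul_of_nonneg_left _ (le_trans zero_le_one (le_max_right _ _))
          exact Finset.one_le_prod fun j _ => le_max_right _ _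
  rw [← hG]
  have hy1 : 1 ≤ max (w y) 1 := le_max_right _ _
  have hf1 : 1 ≤ max (w (pm a g d y)) 1 := le_max_right _ _
  obtain ⟨T, hT⟩ : ∃ T, T = G * max (w y) 1 ^ k * max (w (pm a g d y)) 1 := ⟨_, rfl⟩
  have hp1 : 1 ≤ max (w y) 1 ^ k := one_le_pow₀ hy1
  rw [← hT]
  have hT1 : max (w (pm a g d y)) 1 ≤ T := by
    rw [hT]
    apply le_mul_of_one_le_left (by positivity)
    exact one_le_mul_of_one_le_of_one_le hG1 hp1
  have hT2 : G * max (w y) 1 ^ k ≤ T := by
    rw [hT]
    exact le_mul_of_one_le_right (by positivity) hf1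
  have hT0 : 0 ≤ T := le_trans (by positivity) hT1
  have e1 : a * y ^ d + g.coeff 0 = pm a g d y +
      -(∑ j ∈ Finset.range k, g.coeff (j + 1) * y ^ (j + 1)) := by
    unfold pm
    rw [eval_split g k hg y]
    ring
  have h2 : w (∑ j ∈ Finset.range k, g.coeff (j + 1) * y ^ (j + 1)) ≤ k * T := by
    refine (w.sum_le _ _).trans ?_
    calc ∑ j ∈ Finset.range k, w (g.coeff (j + 1) * y ^ (j + 1)) ≤ ∑ _j ∈ Finset.range k, T := by
          apply Finset.sum_le_sum
          intro j hj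
          refine le_trans ?_ hT2
          rw [map_mul, map_pow]
          apply mul_le_mul (hGj j hj) _ (pow_nonneg (w.nonneg _) _) (by linarith)
          rw [Finset.mem_range] at hj
          calc w y ^ (j + 1) ≤ max (w y) 1 ^ (j + 1) :=
                pow_le_pow_left₀ (w.nonneg _) (le_max_left _ _) _
            _ ≤ _ := pow_le_pow_right₀ hy1 (by omega)
      _ = _ := by rw [Finset.sum_const, Finset.card_range, nsmul_eq_mul]
  rw [e1]
  calc w (pm a g d y + -(∑ j ∈ Finset.range k, g.coeff (j + 1) * y ^ (j + 1)))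
      ≤ w (pm a g d y) + w (-(∑ j ∈ Finset.range k, g.coeff (j + 1) * y ^ (j + 1))) := w.add_le _ _
    _ ≤ T + k * T := by
        rw [AbsoluteValue.map_neg]
        exact add_le_add ((le_max_left _ _).trans hT1) h2
    _ = (k + 1) * T := by ring
    _ ≤ _ := mul_le_mul_of_nonneg_right (le_two_pow_cast k) hT0

/-- **preperiodic points** -/
theorem poly_main (D M k : ℕ) (hM : 1 ≤ M) : ∃ d₀ Λ : ℕ, ∀ (K : Type) [Field K] [NumberField K],
    Module.finrank ℚ K ≤ D → ∀ (S : Finset (HeightOneSpectrum (𝓞 K))) (d : ℕ), d₀ ≤ d →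
    Λ * ∑ v ∈ S, Ideal.absNorm v.asIdeal ≤ d → ∀ (a : K) (g : K[X]), a ≠ 0 → g.natDegree ≤ k →
    mulHeight₁ a * ∏ j ∈ Finset.range (k + 1), mulHeight₁ (g.coeff j) ≤ HS S (g.coeff 0) ^ M →
    (∏ j ∈ Finset.range k, HS S (g.coeff (j + 1))) ^ M ≤ HS S (g.coeff 0) ^ (M - 1) →
    (∀ y ∈ PrePer (pm a g d), ∀ z ∈ PrePer (pm a g d), y ^ d = z ^ d) ∨
      (∀ y ∈ PrePer (pm a g d), y = 0 ∨ ∃ n : ℕ, 1 ≤ n ∧ y ^ n = 1) := by
  classical
  obtain ⟨N, hN1, hgap⟩ := gap D
  obtain ⟨e, he⟩ : ∃ e, e = D * (k + 2) := ⟨_, rfl⟩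
  obtain ⟨d₀, Λ, hcore⟩ := core D M (2 * M) ((2 * k + 2) * M) e (k + 1) N hM
  refine ⟨d₀ + 2 * (k * (k + 1) + 1) + 4 * M + 4 * M * e * N + 1, Λ, ?_⟩
  intro K _ _ hK S d hd hΛ a g ha hg h1 h2
  obtain ⟨Hb, hHb⟩ : ∃ Hb, Hb = HS S (g.coeff 0) := ⟨_, rfl⟩
  have hHb1 : 1 ≤ Hb := by rw [hHb]; exact one_le_HS S _
  by_cases hall : ∀ y ∈ PrePer (pm a g d), y = 0 ∨ ∃ n : ℕ, 1 ≤ n ∧ y ^ n = 1
  · exact Or.inr hall
  left
  push Not at hall
  obtain ⟨y, hy, hy0, hyr⟩ := hall
  -- it suffices to compare with `y`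
  have key : ∀ z ∈ PrePer (pm a g d), z ^ d = y ^ d := by
    intro z hz
    obtain ⟨Y₁, hY₁, hY₁b, hY₁d⟩ := orbit_height D M k d hM hK (by omega) a ha g hg hHb1
      (by rw [hHb]; exact h1) y hy
    obtain ⟨Y₂, hY₂, hY₂b, hY₂d⟩ := orbit_height D M k d hM hK (by omega) a ha g hg hHb1
      (by rw [hHb]; exact h1) z hz
    rw [← he] at hY₁d hY₂d
    have hyN := hgap K hK y hyr hy0
    have hyY : mulHeight₁ y ≤ Y₁ := hY₁b 0
    have hzY : mulHeight₁ z ≤ Y₂ := hY₂b 0
    by_cases hz0 : z = 0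
    · -- zero is not preperiodic
      exfalso
      have hb : Hb ≤ Y₂ := by
        have h3 := hY₂b 1
        have h4 : (pm a g d)^[1] z = g.coeff 0 := by
          rw [Function.iterate_one, hz0]
          unfold pm
          rw [zero_pow (by omega), mul_zero, zero_add, ← Polynomial.coeff_zero_eq_eval_zero]
        rw [h4] at h3
        rw [hHb]
        exact (HS_le_height S _).trans h3
      have h5 : Hb ^ d ≤ (2 ^ e * Hb) ^ (2 * M) := (pow_le_pow_left₀ (by linarith) hb _).trans hY₂d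
      have h6 : Hb ^ (2 * M) ≤ 2 ^ (e * (2 * M)) := by
        have h7 : Hb ^ (2 * M) * Hb ^ (2 * M) ≤ 2 ^ (e * (2 * M)) * Hb ^ (2 * M) := by
          calc Hb ^ (2 * M) * Hb ^ (2 * M) = Hb ^ (4 * M) := by rw [← pow_add]; congr 1; ring
            _ ≤ Hb ^ d := pow_le_pow_right₀ hHb1 (by omega)
            _ ≤ (2 ^ e * Hb) ^ (2 * M) := h5
            _ = _ := by rw [mul_pow, ← pow_mul]
        exact le_of_mul_le_mul_right h7 (by positivity)
      have h8 : Y₁ ^ d ≤ 2 ^ (4 * M * e) := by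
        calc Y₁ ^ d ≤ (2 ^ e * Hb) ^ (2 * M) := hY₁d
          _ = 2 ^ (e * (2 * M)) * Hb ^ (2 * M) := by rw [mul_pow, ← pow_mul]
          _ ≤ 2 ^ (e * (2 * M)) * 2 ^ (e * (2 * M)) := mul_le_mul_of_nonneg_left h6 (by positivity)
          _ = _ := by rw [← pow_add]; congr 1; ring
      have h9 : (Y₁ ^ N) ^ d ≤ 2 ^ d := by
        calc (Y₁ ^ N) ^ d = (Y₁ ^ d) ^ N := by rw [← pow_mul, ← pow_mul, mul_comm]
          _ ≤ (2 ^ (4 * M * e)) ^ N := pow_le_pow_left₀ (by positivity) h8 _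
          _ = 2 ^ (4 * M * e * N) := by rw [← pow_mul]
          _ ≤ _ := pow_le_pow_right₀ (by norm_num) (by omega)
      have h10 : Y₁ ^ N ≤ 2 :=
        (pow_le_pow_iff_left₀ (by positivity) (by norm_num) (by omega)).mp h9
      have h11 : mulHeight₁ y ^ N ≤ Y₁ ^ N := pow_le_pow_left₀ (mulHeight₁_nonneg _) hyY _
      linarith
    · by_contra hne
      obtain ⟨Y, hY⟩ : ∃ Y, Y = max Y₁ Y₂ := ⟨_, rfl⟩
      have hY1 : 1 ≤ Y := by rw [hY]; exact hY₁.trans (le_max_left _ _)
      have hYd : Y ^ d ≤ (2 ^ e * HS S (g.coeff 0)) ^ (2 * M) := by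
        rw [← hHb, hY]
        rcases max_choice Y₁ Y₂ with h | h <;> rw [h]
        · exact hY₁d
        · exact hY₂d
      have hyb : ∀ n, mulHeight₁ ((pm a g d)^[n] y) ≤ Y := fun n => by
        rw [hY]; exact (hY₁b n).trans (le_max_left _ _)
      have hzb : ∀ n, mulHeight₁ ((pm a g d)^[n] z) ≤ Y := fun n => by
        rw [hY]; exact (hY₂b n).trans (le_max_right _ _)
      obtain ⟨G, hG⟩ : ∃ G : AbsoluteValue K ℝ → ℝ,
        G = fun w => ∏ j ∈ Finset.range k, max (w (g.coeff (j + 1))) 1 := ⟨_, rfl⟩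
      let σ : AbsoluteValue K ℝ → ℝ := fun w => G w * ((max (w y) 1 ^ k * max (w (pm a g d y)) 1) *
        (max (w z) 1 ^ k * max (w (pm a g d z)) 1))
      have hG1 : ∀ w, 1 ≤ G w := fun w => by
        rw [hG]; exact Finset.one_le_prod fun j _ => le_max_right _ _
      have hm1 : ∀ (w : AbsoluteValue K ℝ) (u : K),
          1 ≤ max (w u) 1 ^ k * max (w (pm a g d u)) 1 := fun w u =>
        one_le_mul_of_one_le_of_one_le (one_le_pow₀ (le_max_right _ _)) (le_max_right _ _)
      have hσ1 : ∀ w, 1 ≤ σ w := fun w => one_le_mul_of_one_le_of_one_le (hG1 w)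
        (one_le_mul_of_one_le_of_one_le (hm1 w y) (hm1 w z))
      have hys : ∀ w : AbsoluteValue K ℝ, w (a * y ^ d + g.coeff 0) ≤ 2 ^ (k + 1) * σ w := by
        intro w
        refine (rem_le w a g k d hg y).trans ?_
        apply mul_le_mul_of_nonneg_left _ (by positivity)
        have e1 : σ w = (G w * (max (w y) 1 ^ k * max (w (pm a g d y)) 1)) *
            (max (w z) 1 ^ k * max (w (pm a g d z)) 1) := by
          show G w * _ = _
          ring
        rw [e1, mul_assoc, ← show G w = ∏ j ∈ Finset.range k, max (w (g.coeff (j + 1))) 1 by rw [hG]]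
        apply le_mul_of_one_le_right _ (hm1 w z)
        exact mul_nonneg (by linarith [hG1 w]) (by linarith [hm1 w y])
      have hzs : ∀ w : AbsoluteValue K ℝ, w (a * z ^ d + g.coeff 0) ≤ 2 ^ (k + 1) * σ w := by
        intro w
        refine (rem_le w a g k d hg z).trans ?_
        apply mul_le_mul_of_nonneg_left _ (by positivity)
        have e1 : σ w = (G w * (max (w z) 1 ^ k * max (w (pm a g d z)) 1)) *
            (max (w y) 1 ^ k * max (w (pm a g d y)) 1) := by
          show G w * _ = _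
          ring
        rw [e1, mul_assoc, ← show G w = ∏ j ∈ Finset.range k, max (w (g.coeff (j + 1))) 1 by rw [hG]]
        apply le_mul_of_one_le_right _ (hm1 w y)
        exact mul_nonneg (by linarith [hG1 w]) (by linarith [hm1 w z])
      have hHSY : ∀ (u : K), mulHeight₁ u ≤ Y → mulHeight₁ (pm a g d u) ≤ Y →
          PP S (fun w => max (w u) 1 ^ k * max (w (pm a g d u)) 1) ≤ Y ^ (k + 1) := by
        intro u hu hfu
        rw [PP_mul, PP_pow S (fun w => max (w u) 1), pow_succ]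
        apply mul_le_mul
        · exact pow_le_pow_left₀ (PP_nonneg S fun w => le_trans zero_le_one (le_max_right _ _))
            ((HS_le_height S u).trans hu) _
        · exact (HS_le_height S _).trans hfu
        · exact PP_nonneg S fun w => le_trans zero_le_one (le_max_right _ _)
        · exact pow_nonneg (by linarith) _
      have hPσ : PP S σ ≤ (∏ j ∈ Finset.range k, HS S (g.coeff (j + 1))) * Y ^ (2 * k + 2) := by
        have e1 : PP S σ = PP S G * (PP S (fun w => max (w y) 1 ^ k * max (w (pm a g d y)) 1) *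
            PP S (fun w => max (w z) 1 ^ k * max (w (pm a g d z)) 1)) := by
          rw [← PP_mul, ← PP_mul]
        have e2 : PP S G = ∏ j ∈ Finset.range k, HS S (g.coeff (j + 1)) := by
          rw [hG, PP_prod S (Finset.range k) (fun j w => max (w (g.coeff (j + 1))) 1)]
          rfl
        rw [e1, e2]
        apply mul_le_mul_of_nonneg_left _
          (Finset.prod_nonneg fun j _ => le_trans zero_le_one (one_le_HS S _))
        calc _ ≤ Y ^ (k + 1) * Y ^ (k + 1) := by
              apply mul_le_mul (hHSY y (hyb 0) (hyb 1)) (hHSY z (hzb 0) (hzb 1))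
              · exact PP_nonneg S fun w => by linarith [hm1 w z]
              · exact pow_nonneg (by linarith) _
          _ = _ := by rw [← pow_add]; congr 1; ring
      have hσM : PP S σ ^ M ≤ 2 ^ e * HS S (g.coeff 0) ^ (M - 1) * Y ^ ((2 * k + 2) * M) := by
        calc PP S σ ^ M ≤ ((∏ j ∈ Finset.range k, HS S (g.coeff (j + 1))) * Y ^ (2 * k + 2)) ^ M :=
              pow_le_pow_left₀ (PP_nonneg S fun w => by linarith [hσ1 w]) hPσ _
          _ = (∏ j ∈ Finset.range k, HS S (g.coeff (j + 1))) ^ M * Y ^ ((2 * k + 2) * M) := by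
              rw [mul_pow, ← pow_mul]
          _ ≤ (2 ^ e * HS S (g.coeff 0) ^ (M - 1)) * Y ^ ((2 * k + 2) * M) := by
              apply mul_le_mul_of_nonneg_right _ (pow_nonneg (by linarith) _)
              refine h2.trans ?_
              apply le_mul_of_one_le_left _ (one_le_pow₀ (by norm_num))
              exact pow_nonneg (le_trans zero_le_one (one_le_HS S _)) _
      have hY2 := hcore K hK S d (by omega) hΛ a (g.coeff 0) y z (a * y ^ d + g.coeff 0)
        (a * z ^ d + g.coeff 0) ha hy0 hz0 rfl rfl σ hσ1 hys hzs Y hY1 (hyb 0) (hzb 0) hYd hσM hne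
      have h11 : mulHeight₁ y ^ N ≤ Y ^ N := pow_le_pow_left₀ (mulHeight₁_nonneg _) (hyb 0) _
      linarith
  intro u hu z hz
  rw [key u hu, key z hz]

end Run7.h197.U
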