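import Pool.Agent.Run7.h197.U.Uniform

/-!
**The distance of a power from `1`**, uniformly in all number fields of bounded degree.
-/

set_option autoImplicit false

namespace Run7.h197.U

open Finset NumberField Height
open Run7.h197.BK

variable {K : Type} [Field K] [NumberField K]

/-- the conjugates are bounded by the height -/
lemma conj_le_height (φ : K →+* ℂ) (x : K) : ‖φ x‖ ≤ mulHeight₁ x := by
  classical
  rw [NumberField.mulHeight₁_eq]
  have hfin : 1 ≤ ∏ᶠ v : FinitePlace K, max (v x) 1 :=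
    one_le_finprod fun v => le_max_right _ _
  have h1 : ∀ v : InfinitePlace K, 1 ≤ max (v x) 1 ^ v.mult :=
    fun v => one_le_pow₀ (le_max_right _ _)
  have h2 : ‖φ x‖ ≤ ∏ v : InfinitePlace K, max (v x) 1 ^ v.mult := by
    calc ‖φ x‖ = (InfinitePlace.mk φ) x := (InfinitePlace.apply φ x).symm
      _ ≤ max ((InfinitePlace.mk φ) x) 1 := le_max_left _ _
      _ ≤ max ((InfinitePlace.mk φ) x) 1 ^ (InfinitePlace.mk φ).mult :=
          le_self_pow₀ (le_max_right _ _) (by
            have := InfinitePlace.mult_pos (w := InfinitePlace.mk φ)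
            omega)
      _ ≤ _ := by
          rw [← Finset.mul_prod_erase _ _ (Finset.mem_univ (InfinitePlace.mk φ))]
          apply le_mul_of_one_le_right (by positivity)
          calc (1 : ℝ) = ∏ _v ∈ Finset.univ.erase (InfinitePlace.mk φ), (1 : ℝ) :=
                Finset.prod_const_one.symm
            _ ≤ _ := Finset.prod_le_prod (fun _ _ => zero_le_one) fun v _ => h1 v
  calc ‖φ x‖ ≤ (∏ v : InfinitePlace K, max (v x) 1 ^ v.mult) * 1 := by rw [mul_one]; exact h2
    _ ≤ _ := mul_le_mul_of_nonneg_left hfin (Finset.prod_nonneg fun v _ => by positivity)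

/-- **the distance of a power from `1`** -/
theorem pow_far (D : ℕ) : ∃ κ g₀ : ℕ, ∀ (K : Type) [Field K] [NumberField K],
    Module.finrank ℚ K ≤ D → ∀ (φ : K →+* ℂ) (x : K), x ≠ 0 → (∀ N : ℕ, 1 ≤ N → x ^ N ≠ 1) →
    ∀ g d X : ℕ, g₀ ≤ g → 1 ≤ d → d ≤ 2 ^ g → mulHeight₁ x ≤ 2 ^ X →
      (1 / 2 : ℝ) ^ (g ^ κ * (2 * X + 1) + 1) ≤ ‖φ x ^ d - 1‖ := by
  classical
  obtain ⟨κ, g0, hg0, hSB⟩ := SB_le D 1
  refine ⟨κ, g0 + 7, ?_⟩
  intro K _ _ hK φ x hx0 hroot g d X hg hd hdg hX
  by_cases hbig : 1 / 2 ≤ ‖φ x ^ d - 1‖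
  · refine le_trans ?_ hbig
    calc (1 / 2 : ℝ) ^ (g ^ κ * (2 * X + 1) + 1) ≤ (1 / 2 : ℝ) ^ 1 :=
          pow_le_pow_of_le_one (by norm_num) (by norm_num) (by omega)
      _ = 1 / 2 := pow_one _
  push Not at hbig
  have hφx : φ x ≠ 0 := by rwa [map_ne_zero]
  obtain ⟨u, hu⟩ : ∃ u : ℂ, u = φ x ^ d := ⟨_, rfl⟩
  have hu0 : u ≠ 0 := by rw [hu]; exact pow_ne_zero _ hφx
  have hlogu : ‖Complex.log u‖ ≤ 2 * ‖u - 1‖ := by
    rw [← hu] at hbig
    have h1 := Complex.norm_log_one_add_half_le_self (z := u - 1) hbig.le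
    rw [add_sub_cancel] at h1
    have := norm_nonneg (u - 1)
    linarith
  obtain ⟨k, hk⟩ : ∃ k : ℤ, (d : ℂ) * Complex.log (φ x) =
      Complex.log u + k * (2 * Real.pi * Complex.I) := by
    rw [← Complex.exp_eq_exp_iff_exists_int, Complex.exp_nat_mul,
      Complex.exp_log hφx, Complex.exp_log hu0, hu]
  have hg1 : 1 ≤ g := by omega
  have hkn : |k| ≤ g * |(d : ℤ)| := by
    have h1 := congrArg Complex.im hk
    have h2 : (Complex.log u + k * (2 * Real.pi * Complex.I)).im =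
        (Complex.log u).im + k * (2 * Real.pi) := by
      simp
    rw [h2] at h1
    have h3 : ((d : ℂ) * Complex.log (φ x)).im = d * (Complex.log (φ x)).im := by simp
    rw [h3] at h1
    have hpi := Real.pi_pos
    have him : ∀ z : ℂ, |(Complex.log z).im| ≤ Real.pi := by
      intro z
      rw [Complex.log_im]
      exact Complex.abs_arg_le_pi z
    have h5 : |(d : ℝ) * (Complex.log (φ x)).im| ≤ d * Real.pi := by
      rw [abs_mul, Nat.abs_cast]
      exact mul_le_mul_of_nonneg_left (him _) (Nat.cast_nonneg _)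
    have h8 : |(k : ℝ)| * (2 * Real.pi) ≤ d * Real.pi + Real.pi := by
      have h9 : (k : ℝ) * (2 * Real.pi) = d * (Complex.log (φ x)).im - (Complex.log u).im := by
        linarith
      have h10 : |(k : ℝ)| * (2 * Real.pi) = |(k : ℝ) * (2 * Real.pi)| := by
        rw [abs_mul, abs_of_pos (by positivity : 0 < 2 * Real.pi)]
      rw [h10, h9]
      refine (abs_sub _ _).trans ?_
      have h12 := him u
      linarith
    have h9 : |(k : ℝ)| ≤ d + 1 := by
      have h10 : |(k : ℝ)| * Real.pi ≤ (d + 1) * Real.pi := by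
        have h11 : 0 ≤ |(k : ℝ)| * Real.pi := by positivity
        linarith
      exact le_of_mul_le_mul_right h10 hpi
    have h10 : |k| ≤ ((d + 1 : ℕ) : ℤ) := by
      rw [← Int.cast_abs] at h9
      exact_mod_cast h9
    refine h10.trans ?_
    have h11 : d + 1 ≤ g * d := by
      have h13 : 7 * d ≤ g * d := Nat.mul_le_mul_right _ (by omega)
      omega
    rw [Nat.abs_cast]
    exact_mod_cast h11
  -- the number as a quotient of integers
  obtain ⟨n, hn0, hnH, hni⟩ := NumberField.exists_nat_le_mulHeight₁ x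
  have hnK : (n : K) ≠ 0 := Nat.cast_ne_zero.2 hn0
  let y : 𝓞 K := ⟨(n : K) * x, hni⟩
  have hy : (y : K) = n * x := rfl
  have hy0 : y ≠ 0 := by
    exact RingOfIntegers.coe_ne_zero_iff.mp (mul_ne_zero hnK hx0)
  have hn2 : (n : ℝ) ≤ 2 ^ X := hnH.trans hX
  have hnat : ∀ ψ : K →+* ℂ, ψ (((n : 𝓞 K)) : K) = n := fun ψ => by simp
  let aa : Option (Fin 1) → 𝓞 K := fun i => i.elim y (fun _ => 1)
  let cc : Option (Fin 1) → 𝓞 K := fun i => i.elim (n : 𝓞 K) (fun _ => 1)
  let ℓ : Option (Fin 1) → ℂ := fun i => i.elim (Complex.log (φ x))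
    (fun _ => 2 * Real.pi * Complex.I)
  let b : Option (Fin 1) → ℤ := fun i => i.elim (d : ℤ) (fun _ => -k)
  have hLam : Lam ℓ b = Complex.log u := by
    unfold Lam
    rw [Fintype.sum_option]
    simp only [ℓ, b, Option.elim_none, Option.elim_some, Finset.univ_unique, Finset.sum_singleton]
    push_cast at hk ⊢
    linear_combination hk
  have hnt : ∀ N : ℕ, 1 ≤ N → Complex.exp (N * Lam ℓ b) ≠ 1 := by
    intro N hN hexp
    rw [hLam, Complex.exp_nat_mul, Complex.exp_log hu0, hu, ← pow_mul] at hexp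
    apply hroot (d * N) (Nat.mul_pos hd hN)
    apply φ.injective
    rw [map_pow, map_one]
    exact hexp
  obtain ⟨H, hH⟩ : ∃ H, H = 2 * X + 1 := ⟨_, rfl⟩
  have hone : (1 : ℝ) ≤ 2 ^ (g * 1) := one_le_pow₀ (by norm_num)
  have hone' : ∀ ψ : K →+* ℂ, ψ ((1 : 𝓞 K) : K) = 1 := fun ψ => by simp
  have hH2 : (2 : ℝ) ^ (2 * X) ≤ 2 ^ (g * H) := by
    apply pow_le_pow_right₀ (by norm_num)
    calc 2 * X ≤ 1 * H := by omega
      _ ≤ g * H := Nat.mul_le_mul_right _ hg1
  have hlow := hSB K hK g (by omega) H (by omega) φ aa cc ℓ b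
    (by
      rintro (_ | j)
      · exact hy0
      · exact one_ne_zero)
    (by
      rintro (_ | i)
      · exact Nat.cast_ne_zero.2 hn0
      · exact one_ne_zero)
    (by
      rintro ψ (_ | i)
      · show ‖ψ (y : K)‖ ≤ 2 ^ (g * H)
        refine le_trans ?_ hH2
        rw [hy, map_mul, norm_mul, map_natCast, Complex.norm_natCast]
        calc (n : ℝ) * ‖ψ x‖ ≤ 2 ^ X * 2 ^ X := by
              apply mul_le_mul hn2 ((conj_le_height ψ x).trans hX) (norm_nonneg _) (by positivity)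
          _ = 2 ^ (2 * X) := by rw [← pow_add]; congr 1; ring
      · show ‖ψ ((1 : 𝓞 K) : K)‖ ≤ 2 ^ (g * 1)
        rw [hone', norm_one]
        exact hone)
    (by
      rintro ψ (_ | i)
      · show ‖ψ (((n : 𝓞 K)) : K)‖ ≤ 2 ^ (g * H)
        refine le_trans ?_ hH2
        rw [hnat, Complex.norm_natCast]
        exact hn2.trans (pow_le_pow_right₀ (by norm_num) (by omega))
      · show ‖ψ ((1 : 𝓞 K) : K)‖ ≤ 2 ^ (g * 1)
        rw [hone', norm_one]
        exact hone)
    (by
      rintro (_ | j)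
      · show Complex.exp (Complex.log (φ x)) = φ (y : K) / φ (((n : 𝓞 K)) : K)
        rw [Complex.exp_log hφx, hnat, hy, map_mul, map_natCast, mul_div_cancel_left₀]
        exact_mod_cast hn0
      · show Complex.exp (2 * Real.pi * Complex.I) = φ ((1 : 𝓞 K) : K) / φ ((1 : 𝓞 K) : K)
        rw [Complex.exp_two_pi_mul_I, hone', div_one])
    (by
      intro j
      show ‖(2 * Real.pi * Complex.I : ℂ)‖ ≤ g
      rw [norm_mul, norm_mul, Complex.norm_I, mul_one, Complex.norm_real, Real.norm_eq_abs,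
        abs_of_pos Real.pi_pos, Complex.norm_ofNat]
      have h1 := Real.pi_lt_d2
      have h2 : (7 : ℝ) ≤ g := by exact_mod_cast (by omega : 7 ≤ g)
      linarith)
    (by
      show (d : ℤ) ≠ 0
      exact_mod_cast (by omega : d ≠ 0))
    (by
      show |(d : ℤ)| ≤ 2 ^ g
      rw [Nat.abs_cast]
      exact_mod_cast hdg)
    (by
      intro j
      show |-k| ≤ g * |(d : ℤ)|
      rw [abs_neg]
      exact hkn)
    hnt
  rw [hLam] at hlow
  have h1 : (1 / 2 : ℝ) ^ (g ^ κ * (2 * X + 1) + 1) = (1 / 2) ^ (g ^ κ * H) * (1 / 2) := by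
    rw [hH, pow_succ]
  rw [h1, ← hu]
  linarith

end Run7.h197.U
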