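import Pool.Agent.Run7.h197.U.Count

/-!
**Periodic sequences with `x (n + 2) + δ x n = a x (n + 1) ^ d + g (x (n + 1))`** where the constant
term of `g` dominates at the archimedean places and at the places in `S`.
-/

set_option autoImplicit false

namespace Run7.h197.U

open Finset NumberField Height IsDedekindDomain Polynomial
open Pool.Agent.H691R3

section Defs
variable {K : Type} [Field K]

/-- the recursion -/
def Rec (a δ : K) (g : K[X]) (d : ℕ) (x : ℕ → K) : Prop :=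
  ∀ n, x (n + 2) + δ * x n = a * x (n + 1) ^ d + g.eval (x (n + 1))

/-- periodic sequences with the recursion -/
def Cyc (a δ : K) (g : K[X]) (d : ℕ) (x : ℕ → K) : Prop :=
  Rec a δ g d x ∧ ∃ p : ℕ, 1 ≤ p ∧ ∀ n, x (n + p) = x n

/-- the elements of the periodic sequences -/
def Crd (a δ : K) (g : K[X]) (d : ℕ) : Set K := {y | ∃ x : ℕ → K, Cyc a δ g d x ∧ x 0 = y}

end Defs

variable {K : Type} [Field K] [NumberField K]

/-- heights of the elements of periodic sequences -/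
lemma cyc_height (D M k d : ℕ) (hM : 1 ≤ M) (hD : Module.finrank ℚ K ≤ D)
    (hd : 2 * (k * (k + 1) + 2) ≤ d) (a δ : K) (ha : a ≠ 0) (g : K[X]) (hg : g.natDegree ≤ k)
    {B : ℝ} (hB : 1 ≤ B)
    (h : mulHeight₁ a * (mulHeight₁ δ * ∏ j ∈ Finset.range (k + 1), mulHeight₁ (g.coeff j)) ≤ B ^ M)
    (y : K) (hy : y ∈ Crd a δ g d) :
    ∃ (Y : ℝ) (y₁ y₂ : K), 1 ≤ Y ∧ mulHeight₁ y ≤ Y ∧ mulHeight₁ y₁ ≤ Y ∧ mulHeight₁ y₂ ≤ Y ∧
      y₁ + δ * y₂ = a * y ^ d + g.eval y ∧ Y ^ d ≤ (2 ^ (D * (k + 3)) * B) ^ (2 * M) := by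
  classical
  obtain ⟨x, ⟨hrec, p, hp, hper⟩, hx0⟩ := hy
  have hmul : ∀ n m : ℕ, x (n + p * m) = x n := by
    intro n m
    induction m with
    | zero => rw [mul_zero, add_zero]
    | succ m ih => rw [mul_add, mul_one, ← add_assoc, hper, ih]
  have hfin : (Set.range x).Finite := by
    refine ((Finset.range p).image x).finite_toSet.subset ?_
    rintro _ ⟨n, rfl⟩
    rw [Finset.mem_coe, Finset.mem_image]
    refine ⟨n % p, Finset.mem_range.2 (Nat.mod_lt _ (by omega)), ?_⟩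
    conv_rhs => rw [← Nat.mod_add_div n p]
    rw [hmul]
  have hmid : ∀ n, ∃ m, x (m + 1) = x n := by
    intro n
    refine ⟨n + (p - 1), ?_⟩
    rw [add_assoc, Nat.sub_add_cancel hp, hper]
  obtain ⟨o, ho, hmax⟩ := Set.exists_max_image (Set.range x)
    (fun z => mulHeight₁ z) hfin ⟨x 0, 0, rfl⟩
  obtain ⟨n, rfl⟩ := ho
  obtain ⟨m, hm⟩ := hmid n
  obtain ⟨o, ho⟩ : ∃ o, o = x (m + 1) := ⟨_, rfl⟩
  have hmax' : ∀ n' : ℕ, mulHeight₁ (x n') ≤ mulHeight₁ o := by
    intro n'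
    rw [ho, hm]
    exact hmax _ ⟨n', rfl⟩
  obtain ⟨Y, hY⟩ : ∃ Y, Y = mulHeight₁ o := ⟨_, rfl⟩
  have hY1 : 1 ≤ Y := by rw [hY]; exact one_le_mulHeight₁ _
  have hY0 : 0 ≤ Y := by linarith
  obtain ⟨m₀, hm₀⟩ := hmid 0
  refine ⟨Y, x (m₀ + 2), x m₀, hY1, ?_, ?_, ?_, ?_, ?_⟩
  · rw [hY, ← hx0]; exact hmax' 0
  · rw [hY]; exact hmax' _
  · rw [hY]; exact hmax' _
  · rw [← hx0, ← hm₀]
    exact hrec m₀
  obtain ⟨o₁, ho₁⟩ : ∃ o₁, o₁ = x (m + 2) := ⟨_, rfl⟩
  obtain ⟨o₂, ho₂⟩ : ∃ o₂, o₂ = x m := ⟨_, rfl⟩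
  have h1o : mulHeight₁ o₁ ≤ Y := by rw [hY, ho₁]; exact hmax' _
  have h2o : mulHeight₁ o₂ ≤ Y := by rw [hY, ho₂]; exact hmax' _
  have hro : o₁ + δ * o₂ = a * o ^ d + g.eval o := by rw [ho₁, ho₂, ho]; exact hrec m
  have htw : totalWeight K ≤ D := by rw [totalWeight_eq_finrank]; exact hD
  have hgo : mulHeight₁ (g.eval o) ≤ 2 ^ (D * (k + 1)) *
      ((∏ j ∈ Finset.range (k + 1), mulHeight₁ (g.coeff j)) * Y ^ (k * (k + 1))) := by
    rw [Polynomial.eval_eq_sum_range' (n := k + 1) (by omega)]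
    refine (height_sum _ _).trans ?_
    rw [Finset.card_range]
    apply mul_le_mul
    · exact pow_le_pow_right₀ (by norm_num) (Nat.mul_le_mul_right _ htw)
    · have h1 : ∀ j ∈ Finset.range (k + 1), mulHeight₁ (g.coeff j * o ^ j) ≤
          mulHeight₁ (g.coeff j) * Y ^ k := by
        intro j hj
        rw [Finset.mem_range] at hj
        refine (mulHeight₁_mul_le _ _).trans ?_
        apply mul_le_mul_of_nonneg_left _ (mulHeight₁_nonneg _)
        rw [mulHeight₁_pow, ← hY]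
        exact pow_le_pow_right₀ hY1 (by omega)
      refine (Finset.prod_le_prod (fun j _ => mulHeight₁_nonneg _) h1).trans ?_
      rw [Finset.prod_mul_distrib, Finset.prod_const, Finset.card_range, ← pow_mul]
    · exact Finset.prod_nonneg fun j _ => mulHeight₁_nonneg _
    · positivity
  have hP0 : 0 ≤ ∏ j ∈ Finset.range (k + 1), mulHeight₁ (g.coeff j) :=
    Finset.prod_nonneg fun j _ => mulHeight₁_nonneg _
  have hδ0 : 0 ≤ mulHeight₁ δ := mulHeight₁_nonneg _
  have hsum : mulHeight₁ (o₁ + δ * o₂) ≤ 2 ^ D * Y * (mulHeight₁ δ * Y) := by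
    refine (mulHeight₁_add_le _ _).trans ?_
    apply mul_le_mul
    · exact mul_le_mul (pow_le_pow_right₀ (by norm_num) htw) h1o (mulHeight₁_nonneg _) (by positivity)
    · refine (mulHeight₁_mul_le _ _).trans ?_
      exact mul_le_mul_of_nonneg_left h2o hδ0
    · exact mulHeight₁_nonneg _
    · positivity
  obtain ⟨q, hq⟩ : ∃ q, q = k * (k + 1) + 2 := ⟨_, rfl⟩
  have h1 : Y ^ d ≤ 2 ^ (D * (k + 3)) * B ^ M * Y ^ q := by
    have e1 : o ^ d = a⁻¹ * ((o₁ + δ * o₂) - g.eval o) := by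
      rw [hro]
      field_simp
      ring
    calc Y ^ d = mulHeight₁ (o ^ d) := by rw [mulHeight₁_pow, hY]
      _ = mulHeight₁ (a⁻¹ * ((o₁ + δ * o₂) - g.eval o)) := by rw [e1]
      _ ≤ mulHeight₁ a⁻¹ * mulHeight₁ ((o₁ + δ * o₂) - g.eval o) := mulHeight₁_mul_le _ _
      _ ≤ mulHeight₁ a * (2 ^ D * (2 ^ D * Y * (mulHeight₁ δ * Y)) * (2 ^ (D * (k + 1)) *
          ((∏ j ∈ Finset.range (k + 1), mulHeight₁ (g.coeff j)) * Y ^ (k * (k + 1))))) := by
          rw [mulHeight₁_inv]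
          apply mul_le_mul_of_nonneg_left _ (mulHeight₁_nonneg _)
          refine (mulHeight₁_sub_le _ _).trans ?_
          apply mul_le_mul _ hgo (mulHeight₁_nonneg _) (by positivity)
          exact mul_le_mul (pow_le_pow_right₀ (by norm_num) htw) hsum (mulHeight₁_nonneg _)
            (by positivity)
      _ = 2 ^ (D * (k + 3)) * (mulHeight₁ a * (mulHeight₁ δ *
          ∏ j ∈ Finset.range (k + 1), mulHeight₁ (g.coeff j))) * Y ^ q := by
          rw [hq, pow_add Y, show D * (k + 3) = D + D + D * (k + 1) by ring, pow_add, pow_add]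
          ring
      _ ≤ _ := by
          apply mul_le_mul_of_nonneg_right _ (by positivity)
          exact mul_le_mul_of_nonneg_left h (by positivity)
  rw [← hq] at hd
  obtain ⟨C, hC⟩ : ∃ C : ℝ, C = 2 ^ (D * (k + 3)) := ⟨_, rfl⟩
  have hC1 : 1 ≤ C := by rw [hC]; exact one_le_pow₀ (by norm_num)
  rw [← hC] at h1 ⊢
  have h2 : (Y ^ d) ^ 2 ≤ (C * B ^ M) ^ 2 * Y ^ d := by
    calc (Y ^ d) ^ 2 ≤ (C * B ^ M * Y ^ q) ^ 2 := pow_le_pow_left₀ (by positivity) h1 _
      _ = (C * B ^ M) ^ 2 * Y ^ (2 * q) := by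
          rw [mul_pow, ← pow_mul, mul_comm q 2]
      _ ≤ _ := by
          apply mul_le_mul_of_nonneg_left _ (by positivity)
          exact pow_le_pow_right₀ hY1 hd
  have h3 : Y ^ d ≤ (C * B ^ M) ^ 2 := by
    have h4 : 0 < Y ^ d := by positivity
    have h5 : Y ^ d * Y ^ d ≤ (C * B ^ M) ^ 2 * Y ^ d := by
      rw [← sq]
      exact h2
    exact le_of_mul_le_mul_right h5 h4
  refine h3.trans ?_
  rw [mul_comm 2 M, pow_mul (C * B)]
  apply pow_le_pow_left₀ (by positivity)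
  rw [mul_pow]
  apply mul_le_mul_of_nonneg_right _ (by positivity)
  exact le_self_pow₀ hC1 (by omega)

lemma le_two_pow_cast' (k : ℕ) : ((k : ℝ) + 2) ≤ 2 ^ (k + 2) := by
  have h : k + 2 ≤ 2 ^ (k + 2) := Nat.lt_two_pow_self.le
  exact_mod_cast h

omit [NumberField K] in
/-- the remainder is small -/
lemma rem_le' (w : AbsoluteValue K ℝ) (a δ : K) (g : K[X]) (k d : ℕ) (hg : g.natDegree ≤ k)
    (y y₁ y₂ : K) (hy : y₁ + δ * y₂ = a * y ^ d + g.eval y) :
    w (a * y ^ d + g.coeff 0) ≤ 2 ^ (k + 2) *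
      ((max (w δ) 1 * ∏ j ∈ Finset.range k, max (w (g.coeff (j + 1))) 1) *
        (max (w y) 1 ^ k * (max (w y₁) 1 * max (w y₂) 1))) := by
  classical
  obtain ⟨G, hG⟩ : ∃ G, G = ∏ j ∈ Finset.range k, max (w (g.coeff (j + 1))) 1 := ⟨_, rfl⟩
  have hG1 : 1 ≤ G := by
    rw [hG]
    exact Finset.one_le_prod fun j _ => le_max_right _ _
  have hGj : ∀ j ∈ Finset.range k, w (g.coeff (j + 1)) ≤ G := by
    intro j hj
    rw [hG, ← Finset.mul_prod_erase _ _ hj]
    calc w (g.coeff (j + 1)) ≤ max (w (g.coeff (j + 1))) 1 * 1 := by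
          rw [mul_one]; exact le_max_left _ _
      _ ≤ _ := by
          apply mul_le_mul_of_nonneg_left _ (le_trans zero_le_one (le_max_right _ _))
          exact Finset.one_le_prod fun j _ => le_max_right _ _
  rw [← hG]
  obtain ⟨A, hA⟩ : ∃ A, A = max (w δ) 1 := ⟨_, rfl⟩
  obtain ⟨Z, hZ⟩ : ∃ Z, Z = max (w y) 1 := ⟨_, rfl⟩
  obtain ⟨Z₁, hZ₁⟩ : ∃ Z₁, Z₁ = max (w y₁) 1 := ⟨_, rfl⟩
  obtain ⟨Z₂, hZ₂⟩ : ∃ Z₂, Z₂ = max (w y₂) 1 := ⟨_, rfl⟩
  rw [← hA, ← hZ, ← hZ₁, ← hZ₂]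
  have hA1 : 1 ≤ A := by rw [hA]; exact le_max_right _ _
  have hZ1 : 1 ≤ Z := by rw [hZ]; exact le_max_right _ _
  have hZ₁1 : 1 ≤ Z₁ := by rw [hZ₁]; exact le_max_right _ _
  have hZ₂1 : 1 ≤ Z₂ := by rw [hZ₂]; exact le_max_right _ _
  have hZk : 1 ≤ Z ^ k := one_le_pow₀ hZ1
  obtain ⟨T, hT⟩ : ∃ T, T = A * G * (Z ^ k * (Z₁ * Z₂)) := ⟨_, rfl⟩
  rw [← hT]
  have hT1 : Z₁ ≤ T := by
    have : T = Z₁ * (A * G * (Z ^ k * Z₂)) := by rw [hT]; ring
    rw [this]
    apply le_mul_of_one_le_right (by linarith)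
    exact one_le_mul_of_one_le_of_one_le (one_le_mul_of_one_le_of_one_le hA1 hG1)
      (one_le_mul_of_one_le_of_one_le hZk hZ₂1)
  have hT2 : A * Z₂ ≤ T := by
    have : T = A * Z₂ * (G * (Z ^ k * Z₁)) := by rw [hT]; ring
    rw [this]
    apply le_mul_of_one_le_right (by positivity)
    exact one_le_mul_of_one_le_of_one_le hG1 (one_le_mul_of_one_le_of_one_le hZk hZ₁1)
  have hT3 : G * Z ^ k ≤ T := by
    have : T = G * Z ^ k * (A * (Z₁ * Z₂)) := by rw [hT]; ring
    rw [this]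
    apply le_mul_of_one_le_right (by positivity)
    exact one_le_mul_of_one_le_of_one_le hA1 (one_le_mul_of_one_le_of_one_le hZ₁1 hZ₂1)
  have hT0 : 0 ≤ T := le_trans (by linarith) hT1
  have e1 : a * y ^ d + g.coeff 0 = (y₁ + δ * y₂) +
      -(∑ j ∈ Finset.range k, g.coeff (j + 1) * y ^ (j + 1)) := by
    rw [hy, eval_split g k hg y]
    ring
  have h2 : w (∑ j ∈ Finset.range k, g.coeff (j + 1) * y ^ (j + 1)) ≤ k * T := by
    refine (w.sum_le _ _).trans ?_
    calc ∑ j ∈ Finset.range k, w (g.coeff (j + 1) * y ^ (j + 1)) ≤ ∑ _j ∈ Finset.range k, T := by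
          apply Finset.sum_le_sum
          intro j hj
          refine le_trans ?_ hT3
          rw [map_mul, map_pow]
          apply mul_le_mul (hGj j hj) _ (pow_nonneg (w.nonneg _) _) (by linarith)
          rw [Finset.mem_range] at hj
          calc w y ^ (j + 1) ≤ Z ^ (j + 1) := by
                rw [hZ]
                exact pow_le_pow_left₀ (w.nonneg _) (le_max_left _ _) _
            _ ≤ _ := pow_le_pow_right₀ hZ1 (by omega)
      _ = _ := by rw [Finset.sum_const, Finset.card_range, nsmul_eq_mul]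
  have h3 : w (y₁ + δ * y₂) ≤ T + T := by
    refine (w.add_le _ _).trans (add_le_add ?_ ?_)
    · refine le_trans ?_ hT1
      rw [hZ₁]; exact le_max_left _ _
    · refine le_trans ?_ hT2
      rw [map_mul]
      apply mul_le_mul _ _ (w.nonneg _) (by linarith)
      · rw [hA]; exact le_max_left _ _
      · rw [hZ₂]; exact le_max_left _ _
  rw [e1]
  calc w ((y₁ + δ * y₂) + -(∑ j ∈ Finset.range k, g.coeff (j + 1) * y ^ (j + 1)))
      ≤ w (y₁ + δ * y₂) + w (-(∑ j ∈ Finset.range k, g.coeff (j + 1) * y ^ (j + 1))) := w.add_le _ _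
    _ ≤ (T + T) + k * T := by
        rw [AbsoluteValue.map_neg]
        exact add_le_add h3 h2
    _ = (k + 2) * T := by ring
    _ ≤ _ := mul_le_mul_of_nonneg_right (le_two_pow_cast' k) hT0

lemma HS_mul_le (S : Finset (HeightOneSpectrum (𝓞 K))) (x y : K) : HS S (x * y) ≤ HS S x * HS S y := by
  unfold HS
  rw [← PP_mul]
  apply PP_mono
  · intro w; exact le_trans zero_le_one (le_max_right _ _)
  · intro w
    rw [map_mul]
    apply max_le
    · exact mul_le_mul (le_max_left _ _) (le_max_left _ _) (w.nonneg _)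
        (le_trans zero_le_one (le_max_right _ _))
    · exact one_le_mul_of_one_le_of_one_le (le_max_right _ _) (le_max_right _ _)

lemma HS_add_le (S : Finset (HeightOneSpectrum (𝓞 K))) (x y : K) :
    HS S (x + y) ≤ 2 ^ (Module.finrank ℚ K + S.card) * (HS S x * HS S y) := by
  have h2 : PP (K := K) S (fun _ => (2 : ℝ)) = 2 ^ (Module.finrank ℚ K + S.card) := by
    unfold PP
    rw [Finset.prod_pow_eq_pow_sum, ← totalWeight_eq_sum_mult, totalWeight_eq_finrank,
      Finset.prod_const, pow_add]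
  rw [← h2]
  unfold HS
  rw [← PP_mul, ← PP_mul]
  apply PP_mono
  · intro w; exact le_trans zero_le_one (le_max_right _ _)
  · intro w
    have hx : 1 ≤ max (w x) 1 := le_max_right _ _
    have hy : 1 ≤ max (w y) 1 := le_max_right _ _
    have hx' : w x ≤ max (w x) 1 := le_max_left _ _
    have hy' : w y ≤ max (w y) 1 := le_max_left _ _
    have hadd := w.add_le x y
    apply max_le <;> nlinarith

/-- **periodic sequences** -/
theorem seq_main (D M k : ℕ) (hM : 1 ≤ M) : ∃ d₀ Λ : ℕ, ∀ (K : Type) [Field K] [NumberField K],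
    Module.finrank ℚ K ≤ D → ∀ (S : Finset (HeightOneSpectrum (𝓞 K))) (d : ℕ), d₀ ≤ d →
    Λ * ∑ v ∈ S, Ideal.absNorm v.asIdeal ≤ d → ∀ (a δ : K) (g : K[X]), a ≠ 0 → g.natDegree ≤ k →
    mulHeight₁ a * (mulHeight₁ δ * ∏ j ∈ Finset.range (k + 1), mulHeight₁ (g.coeff j)) ≤
      HS S (g.coeff 0) ^ M →
    (HS S δ * ∏ j ∈ Finset.range k, HS S (g.coeff (j + 1))) ^ M ≤ HS S (g.coeff 0) ^ (M - 1) →
    (∀ y ∈ Crd a δ g d, ∀ z ∈ Crd a δ g d, y ^ d = z ^ d) ∨
      (∀ y ∈ Crd a δ g d, y = 0 ∨ ∃ n : ℕ, 1 ≤ n ∧ y ^ n = 1) := by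
  classical
  obtain ⟨N, hN1, hgap⟩ := gap D
  obtain ⟨e, he⟩ : ∃ e, e = D * (k + 3) := ⟨_, rfl⟩
  obtain ⟨d₀, Λ, hcore⟩ := core D M (2 * M) ((2 * k + 4) * M) e (k + 2) N hM
  refine ⟨d₀ + 2 * (k * (k + 1) + 2) + 8 * (M * M) + 8 * N * (M * e + M * M * D) + 1,
    Λ + 8 * N * (M * M), ?_⟩
  intro K _ _ hK S d hd hΛ' a δ g ha hg h1 h2
  obtain ⟨Q, hQ⟩ : ∃ Q, Q = ∑ v ∈ S, Ideal.absNorm v.asIdeal := ⟨_, rfl⟩
  have hΛ : Λ * ∑ v ∈ S, Ideal.absNorm v.asIdeal ≤ d :=
    (Nat.mul_le_mul_right _ (Nat.le_add_right _ _)).trans hΛ'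
  have hcardS : 8 * N * (M * M) * S.card ≤ d := by
    refine le_trans ?_ hΛ'
    have h3 : S.card ≤ ∑ v ∈ S, Ideal.absNorm v.asIdeal := by
      rw [Finset.card_eq_sum_ones]
      apply Finset.sum_le_sum
      intro v _
      exact Nat.pos_of_ne_zero (by rw [Ne, Ideal.absNorm_eq_zero_iff]; exact v.ne_bot)
    exact Nat.mul_le_mul (Nat.le_add_left _ _) h3
  obtain ⟨Hb, hHb⟩ : ∃ Hb, Hb = HS S (g.coeff 0) := ⟨_, rfl⟩
  have hHb1 : 1 ≤ Hb := by rw [hHb]; exact one_le_HS S _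
  by_cases hall : ∀ y ∈ Crd a δ g d, y = 0 ∨ ∃ n : ℕ, 1 ≤ n ∧ y ^ n = 1
  · exact Or.inr hall
  left
  push Not at hall
  obtain ⟨y, hy, hy0, hyr⟩ := hall
  -- it suffices to compare with `y`
  have key : ∀ z ∈ Crd a δ g d, z ^ d = y ^ d := by
    intro z hz
    obtain ⟨Y₁, y₁, y₂, hY₁, hyY, hy₁Y, hy₂Y, hyrec, hY₁d⟩ := cyc_height D M k d hM hK (by omega) a δ
      ha g hg hHb1 (by rw [hHb]; exact h1) y hy
    obtain ⟨Y₂, z₁, z₂, hY₂, hzY, hz₁Y, hz₂Y, hzrec, hY₂d⟩ := cyc_height D M k d hM hK (by omega) a δ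
      ha g hg hHb1 (by rw [hHb]; exact h1) z hz
    rw [← he] at hY₁d hY₂d
    have hyN := hgap K hK y hyr hy0
    by_cases hz0 : z = 0
    · -- zero is not a member
      exfalso
      obtain ⟨t, ht⟩ : ∃ t, t = D + S.card := ⟨_, rfl⟩
      have hb : Hb ≤ 2 ^ t * (HS S δ * Y₂ ^ 2) := by
        have h3 : g.coeff 0 = z₁ + δ * z₂ := by
          rw [hzrec, hz0, zero_pow (by omega), mul_zero, zero_add, Polynomial.coeff_zero_eq_eval_zero]
        rw [hHb, h3]
        refine (HS_add_le S _ _).trans ?_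
        apply mul_le_mul
        · apply pow_le_pow_right₀ (by norm_num)
          omega
        · calc HS S z₁ * HS S (δ * z₂) ≤ Y₂ * (HS S δ * Y₂) := by
                apply mul_le_mul ((HS_le_height S _).trans hz₁Y)
                · refine (HS_mul_le S _ _).trans ?_
                  apply mul_le_mul_of_nonneg_left ((HS_le_height S _).trans hz₂Y)
                  exact le_trans zero_le_one (one_le_HS S _)
                · exact le_trans zero_le_one (one_le_HS S _)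
                · linarith
            _ = _ := by ring
        · exact mul_nonneg (le_trans zero_le_one (one_le_HS S _)) (le_trans zero_le_one (one_le_HS S _))
        · positivity
      have hδM : HS S δ ^ M ≤ Hb ^ (M - 1) := by
        rw [hHb]
        refine le_trans ?_ h2
        apply pow_le_pow_left₀ (le_trans zero_le_one (one_le_HS S _))
        apply le_mul_of_one_le_right (le_trans zero_le_one (one_le_HS S _))
        exact Finset.one_le_prod fun j _ => one_le_HS S _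
      have hδ1 : 0 ≤ HS S δ := le_trans zero_le_one (one_le_HS S _)
      have hb2 : Hb ≤ 2 ^ (t * M) * Y₂ ^ (2 * M) := by
        have h5 : Hb ^ (M - 1) * Hb ≤ Hb ^ (M - 1) * (2 ^ (t * M) * Y₂ ^ (2 * M)) := by
          calc Hb ^ (M - 1) * Hb = Hb ^ M := by rw [← pow_succ, Nat.sub_add_cancel hM]
            _ ≤ (2 ^ t * (HS S δ * Y₂ ^ 2)) ^ M := pow_le_pow_left₀ (by linarith) hb _
            _ = HS S δ ^ M * (2 ^ (t * M) * Y₂ ^ (2 * M)) := by
                rw [mul_pow, mul_pow, ← pow_mul, ← pow_mul]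
                ring
            _ ≤ _ := mul_le_mul_of_nonneg_right hδM (by positivity)
        exact le_of_mul_le_mul_left h5 (by positivity)
      obtain ⟨E, hE⟩ : ∃ E, E = 2 * M * e + 2 * (M * M) * t := ⟨_, rfl⟩
      have hHb2 : (2 ^ e * Hb) ^ (2 * M) ≤ 2 ^ E * Y₂ ^ (4 * (M * M)) := by
        calc (2 ^ e * Hb) ^ (2 * M) ≤ (2 ^ e * (2 ^ (t * M) * Y₂ ^ (2 * M))) ^ (2 * M) := by
              apply pow_le_pow_left₀ (by positivity)
              exact mul_le_mul_of_nonneg_left hb2 (by positivity)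
          _ = _ := by
              rw [← mul_assoc, ← pow_add, mul_pow, ← pow_mul, ← pow_mul, hE]
              congr 1
              · congr 1
                ring
              · congr 1
                ring
      have hY₂M : Y₂ ^ (4 * (M * M)) * Y₂ ^ (4 * (M * M)) ≤ Y₂ ^ d := by
        rw [← pow_add]
        exact pow_le_pow_right₀ hY₂ (by omega)
      have hY₂pos : 0 < Y₂ ^ d := by positivity
      have hEpos : (0 : ℝ) ≤ 2 ^ E := by positivity
      have hsq : ∀ Y : ℝ, 0 ≤ Y → Y ^ d ≤ (2 ^ e * Hb) ^ (2 * M) → Y ^ d * Y ^ d ≤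
          2 ^ (2 * E) * Y₂ ^ d := by
        intro Y hY h
        have h6 := h.trans hHb2
        calc Y ^ d * Y ^ d ≤ (2 ^ E * Y₂ ^ (4 * (M * M))) * (2 ^ E * Y₂ ^ (4 * (M * M))) :=
              mul_le_mul h6 h6 (pow_nonneg hY _) (by positivity)
          _ = 2 ^ (2 * E) * (Y₂ ^ (4 * (M * M)) * Y₂ ^ (4 * (M * M))) := by
              rw [two_mul E, pow_add]
              ring
          _ ≤ _ := mul_le_mul_of_nonneg_left hY₂M (by positivity)
      have h7 : Y₂ ^ d ≤ 2 ^ (2 * E) :=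
        le_of_mul_le_mul_right (hsq Y₂ (by linarith) hY₂d) hY₂pos
      have h8 : Y₁ ^ d * Y₁ ^ d ≤ 2 ^ (2 * E) * 2 ^ (2 * E) :=
        (hsq Y₁ (by linarith) hY₁d).trans (mul_le_mul_of_nonneg_left h7 (by positivity))
      have h9 : Y₁ ^ d ≤ 2 ^ (2 * E) := by
        rw [← sq, ← sq] at h8
        exact (pow_le_pow_iff_left₀ (by positivity) (by positivity) (by norm_num)).mp h8
      have hEN : 2 * E * N ≤ d := by
        have e1 : 2 * (2 * E * N) = 8 * N * (M * e + M * M * D) + 8 * N * (M * M) * S.card := by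
          rw [hE, ht]
          ring
        omega
      have h10 : (Y₁ ^ N) ^ d ≤ 2 ^ d := by
        calc (Y₁ ^ N) ^ d = (Y₁ ^ d) ^ N := by rw [← pow_mul, ← pow_mul, mul_comm]
          _ ≤ (2 ^ (2 * E)) ^ N := pow_le_pow_left₀ (by positivity) h9 _
          _ = 2 ^ (2 * E * N) := by rw [← pow_mul]
          _ ≤ _ := pow_le_pow_right₀ (by norm_num) hEN
      have h11 : Y₁ ^ N ≤ 2 :=
        (pow_le_pow_iff_left₀ (by positivity) (by norm_num) (by omega)).mp h10
      have h12 : mulHeight₁ y ^ N ≤ Y₁ ^ N := pow_le_pow_left₀ (mulHeight₁_nonneg _) hyY _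
      linarith
    · by_contra hne
      obtain ⟨Y, hY⟩ : ∃ Y, Y = max Y₁ Y₂ := ⟨_, rfl⟩
      have hY1 : 1 ≤ Y := by rw [hY]; exact hY₁.trans (le_max_left _ _)
      have hYd : Y ^ d ≤ (2 ^ e * HS S (g.coeff 0)) ^ (2 * M) := by
        rw [← hHb, hY]
        rcases max_choice Y₁ Y₂ with h | h <;> rw [h]
        · exact hY₁d
        · exact hY₂d
      have hl : Y₁ ≤ Y := by rw [hY]; exact le_max_left _ _
      have hr : Y₂ ≤ Y := by rw [hY]; exact le_max_right _ _
      obtain ⟨G, hG⟩ : ∃ G : AbsoluteValue K ℝ → ℝ,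
        G = fun w => max (w δ) 1 * ∏ j ∈ Finset.range k, max (w (g.coeff (j + 1))) 1 := ⟨_, rfl⟩
      obtain ⟨m, hm⟩ : ∃ m : K → K → K → AbsoluteValue K ℝ → ℝ,
        m = fun u u₁ u₂ w => max (w u) 1 ^ k * (max (w u₁) 1 * max (w u₂) 1) := ⟨_, rfl⟩
      let σ : AbsoluteValue K ℝ → ℝ := fun w => G w * (m y y₁ y₂ w * m z z₁ z₂ w)
      have hG1 : ∀ w, 1 ≤ G w := fun w => by
        rw [hG]
        exact one_le_mul_of_one_le_of_one_le (le_max_right _ _)
          (Finset.one_le_prod fun j _ => le_max_right _ _)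
      have hm1 : ∀ (u u₁ u₂ : K) (w : AbsoluteValue K ℝ), 1 ≤ m u u₁ u₂ w := fun u u₁ u₂ w => by
        rw [hm]
        exact one_le_mul_of_one_le_of_one_le (one_le_pow₀ (le_max_right _ _))
          (one_le_mul_of_one_le_of_one_le (le_max_right _ _) (le_max_right _ _))
      have hσ1 : ∀ w, 1 ≤ σ w := fun w => one_le_mul_of_one_le_of_one_le (hG1 w)
        (one_le_mul_of_one_le_of_one_le (hm1 _ _ _ w) (hm1 _ _ _ w))
      have hys : ∀ w : AbsoluteValue K ℝ, w (a * y ^ d + g.coeff 0) ≤ 2 ^ (k + 2) * σ w := by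
        intro w
        have h3 := rem_le' w a δ g k d hg y y₁ y₂ hyrec
        have e2 : (max (w δ) 1 * ∏ j ∈ Finset.range k, max (w (g.coeff (j + 1))) 1) *
            (max (w y) 1 ^ k * (max (w y₁) 1 * max (w y₂) 1)) = G w * m y y₁ y₂ w := by rw [hG, hm]
        rw [e2] at h3
        refine h3.trans ?_
        apply mul_le_mul_of_nonneg_left _ (by positivity)
        have e1 : σ w = (G w * m y y₁ y₂ w) * m z z₁ z₂ w := by
          show G w * _ = _
          ring
        rw [e1]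
        apply le_mul_of_one_le_right _ (hm1 _ _ _ w)
        exact mul_nonneg (by linarith [hG1 w]) (by linarith [hm1 y y₁ y₂ w])
      have hzs : ∀ w : AbsoluteValue K ℝ, w (a * z ^ d + g.coeff 0) ≤ 2 ^ (k + 2) * σ w := by
        intro w
        have h3 := rem_le' w a δ g k d hg z z₁ z₂ hzrec
        have e2 : (max (w δ) 1 * ∏ j ∈ Finset.range k, max (w (g.coeff (j + 1))) 1) *
            (max (w z) 1 ^ k * (max (w z₁) 1 * max (w z₂) 1)) = G w * m z z₁ z₂ w := by rw [hG, hm]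
        rw [e2] at h3
        refine h3.trans ?_
        apply mul_le_mul_of_nonneg_left _ (by positivity)
        have e1 : σ w = (G w * m z z₁ z₂ w) * m y y₁ y₂ w := by
          show G w * _ = _
          ring
        rw [e1]
        apply le_mul_of_one_le_right _ (hm1 _ _ _ w)
        exact mul_nonneg (by linarith [hG1 w]) (by linarith [hm1 z z₁ z₂ w])
      have hHSY : ∀ (u u₁ u₂ : K), mulHeight₁ u ≤ Y → mulHeight₁ u₁ ≤ Y → mulHeight₁ u₂ ≤ Y →
          PP S (m u u₁ u₂) ≤ Y ^ (k + 2) := by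
        intro u u₁ u₂ hu hu₁ hu₂
        rw [hm]
        show PP S (fun w => max (w u) 1 ^ k * (max (w u₁) 1 * max (w u₂) 1)) ≤ _
        rw [PP_mul, PP_mul, PP_pow S (fun w => max (w u) 1), pow_add]
        have hn : ∀ x : K, 0 ≤ PP S (fun w => max (w x) 1) := fun x =>
          PP_nonneg S fun w => le_trans zero_le_one (le_max_right _ _)
        apply mul_le_mul
        · exact pow_le_pow_left₀ (hn u) ((HS_le_height S u).trans hu) _
        · rw [sq]
          exact mul_le_mul ((HS_le_height S _).trans hu₁) ((HS_le_height S _).trans hu₂) (hn _)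
            (by linarith)
        · exact mul_nonneg (hn _) (hn _)
        · exact pow_nonneg (by linarith) _
      have hPσ : PP S σ ≤ (HS S δ * ∏ j ∈ Finset.range k, HS S (g.coeff (j + 1))) *
          Y ^ (2 * k + 4) := by
        have e1 : PP S σ = PP S G * (PP S (m y y₁ y₂) * PP S (m z z₁ z₂)) := by
          rw [← PP_mul, ← PP_mul]
        have e2 : PP S G = HS S δ * ∏ j ∈ Finset.range k, HS S (g.coeff (j + 1)) := by
          rw [hG, PP_mul, PP_prod S (Finset.range k) (fun j w => max (w (g.coeff (j + 1))) 1)]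
          rfl
        rw [e1, e2]
        apply mul_le_mul_of_nonneg_left _
          (mul_nonneg (le_trans zero_le_one (one_le_HS S _))
            (Finset.prod_nonneg fun j _ => le_trans zero_le_one (one_le_HS S _)))
        calc _ ≤ Y ^ (k + 2) * Y ^ (k + 2) := by
              apply mul_le_mul (hHSY y y₁ y₂ (hyY.trans hl) (hy₁Y.trans hl) (hy₂Y.trans hl))
                (hHSY z z₁ z₂ (hzY.trans hr) (hz₁Y.trans hr) (hz₂Y.trans hr))
              · exact PP_nonneg S fun w => by linarith [hm1 z z₁ z₂ w]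
              · exact pow_nonneg (by linarith) _
          _ = _ := by rw [← pow_add]; congr 1; ring
      have hσM : PP S σ ^ M ≤ 2 ^ e * HS S (g.coeff 0) ^ (M - 1) * Y ^ ((2 * k + 4) * M) := by
        calc PP S σ ^ M ≤ ((HS S δ * ∏ j ∈ Finset.range k, HS S (g.coeff (j + 1))) *
              Y ^ (2 * k + 4)) ^ M :=
              pow_le_pow_left₀ (PP_nonneg S fun w => by linarith [hσ1 w]) hPσ _
          _ = (HS S δ * ∏ j ∈ Finset.range k, HS S (g.coeff (j + 1))) ^ M *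
              Y ^ ((2 * k + 4) * M) := by rw [mul_pow _ (Y ^ (2 * k + 4)), ← pow_mul]
          _ ≤ (2 ^ e * HS S (g.coeff 0) ^ (M - 1)) * Y ^ ((2 * k + 4) * M) := by
              apply mul_le_mul_of_nonneg_right _ (pow_nonneg (by linarith) _)
              refine h2.trans ?_
              apply le_mul_of_one_le_left _ (one_le_pow₀ (by norm_num))
              exact pow_nonneg (le_trans zero_le_one (one_le_HS S _)) _
      have hY2 := hcore K hK S d (by omega) hΛ a (g.coeff 0) y z (a * y ^ d + g.coeff 0)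
        (a * z ^ d + g.coeff 0) ha hy0 hz0 rfl rfl σ hσ1 hys hzs Y hY1 (hyY.trans hl)
        (hzY.trans hr) hYd hσM hne
      have h11 : mulHeight₁ y ^ N ≤ Y ^ N :=
        pow_le_pow_left₀ (mulHeight₁_nonneg _) (hyY.trans hl) _
      linarith
  intro u hu z hz
  rw [key u hu, key z hz]

end Run7.h197.U
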