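import Pool.Agent.Run7.h197.U.Seq
import Pool.Agent.Helper259.HtExt

/-!
`T`-integral numbers and periodic sequences with `T`-integral coefficients.
-/

set_option autoImplicit false

namespace Run7.h197.U

open Finset NumberField Height IsDedekindDomain Polynomial
open Pool.Agent.H691R3

/-- some power of `T` times `x` is an algebraic integer -/
def TInt {K : Type} [Field K] (T : ℕ) (x : K) : Prop := ∃ n : ℕ, IsIntegral ℤ ((T : K) ^ n * x)

lemma TInt.map {K L : Type} [Field K] [Field L] (φ : K →+* L) {T : ℕ} {x : K} (h : TInt T x) :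
    TInt T (φ x) := by
  obtain ⟨n, hn⟩ := h
  refine ⟨n, ?_⟩
  have h1 := IsIntegral.map (R := ℤ) φ.toIntAlgHom hn
  have h2 : φ.toIntAlgHom ((T : K) ^ n * x) = (T : L) ^ n * φ x := by
    show φ ((T : K) ^ n * x) = _
    rw [map_mul, map_pow, map_natCast]
  rwa [h2] at h1

theorem height_ext {K : Type} [Field K] [NumberField K] (L : Type) [Field L] [NumberField L]
    [Algebra K L] (x : K) :
    mulHeight₁ (algebraMap K L x) = mulHeight₁ x ^ Module.finrank K L := by
  have h := Pool.Agent.Helper259.HtExt.mulHeight_ext (L := L) ![x, 1]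
  have h2 : (fun i => algebraMap K L (![x, 1] i)) = ![algebraMap K L x, 1] := by
    funext i
    fin_cases i <;> simp
  rw [h2] at h
  rw [mulHeight₁_eq_mulHeight, mulHeight₁_eq_mulHeight, h]

variable {K : Type} [Field K] [NumberField K]

/-- the places above `T` -/
theorem exists_places (D T : ℕ) (hT : 1 ≤ T) (hD : Module.finrank ℚ K ≤ D) :
    ∃ S : Finset (HeightOneSpectrum (𝓞 K)),
      ∑ v ∈ S, Ideal.absNorm v.asIdeal ≤ D * (T + 1) ^ (D + 1) ∧
      ∀ x : K, TInt T x → ∀ v ∉ S, FinitePlace.mk v x ≤ 1 := by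
  classical
  have hT0 : (T : K) ≠ 0 := Nat.cast_ne_zero.2 (by omega)
  have hfin := fv_support_finite (K := K) hT0
  refine ⟨hfin.toFinset, ?_, ?_⟩
  · have hmem : ∀ v ∈ hfin.toFinset, ((T : ℕ) : 𝓞 K) ∈ v.asIdeal := by
      intro v hv
      rw [Set.Finite.mem_toFinset, Set.mem_ofPred_eq] at hv
      rw [← fv_lt_one_iff]
      have h1 := fv_natCast_le v T
      have h2 : fv v (((T : ℕ) : 𝓞 K) : K) = fv v (T : K) := by simp
      rw [h2]
      exact lt_of_le_of_ne h1 hv
    have hnorm : ∀ v ∈ hfin.toFinset, Ideal.absNorm v.asIdeal ≤ T ^ D := by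
      intro v hv
      have h1 : Ideal.span {((T : ℕ) : 𝓞 K)} ≤ v.asIdeal := by
        rw [Ideal.span_singleton_le_iff_mem]
        exact hmem v hv
      have h2 := Ideal.absNorm_dvd_absNorm_of_le h1
      rw [Ideal.absNorm_span_natCast] at h2
      have h3 : Module.finrank ℤ (𝓞 K) = Module.finrank ℚ K := RingOfIntegers.rank K
      rw [h3] at h2
      calc Ideal.absNorm v.asIdeal ≤ T ^ Module.finrank ℚ K :=
            Nat.le_of_dvd (Nat.pow_pos (by omega)) h2
        _ ≤ T ^ D := Nat.pow_le_pow_right hT hD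
    have hcard : hfin.toFinset.card ≤ D * (T + 1) := by
      calc hfin.toFinset.card ≤ D * (hfin.toFinset.image fun v => Pool.Agent.TH876.Loc.pv v).card := by
            refine Finset.card_le_mul_card_image _ _ ?_
            intro p _
            exact (Pool.Agent.TH876.Loc.card_above p _ fun v hv => (Finset.mem_filter.1 hv).2).trans hD
        _ ≤ _ := by
            apply Nat.mul_le_mul_left
            rw [← Finset.card_range (T + 1)]
            apply Finset.card_le_card
            intro p hp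
            obtain ⟨v, hv, rfl⟩ := Finset.mem_image.1 hp
            rw [Finset.mem_range]
            have h1 : Pool.Agent.TH876.Loc.pv v ∣ T := by
              have h2 := hmem v hv
              have h3 : ((T : ℤ) : 𝓞 K) ∈ v.asIdeal := by
                rw [Int.cast_natCast]
                exact h2
              rw [Int.cast_mem_ideal_iff] at h3
              exact Int.natCast_dvd_natCast.1 h3
            have := Nat.le_of_dvd (by omega) h1
            omega
    calc ∑ v ∈ hfin.toFinset, Ideal.absNorm v.asIdeal ≤ ∑ _v ∈ hfin.toFinset, T ^ D :=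
          Finset.sum_le_sum hnorm
      _ = hfin.toFinset.card * T ^ D := by rw [Finset.sum_const, smul_eq_mul]
      _ ≤ (D * (T + 1)) * (T + 1) ^ D :=
          Nat.mul_le_mul hcard (Nat.pow_le_pow_left (by omega) _)
      _ = _ := by rw [pow_succ]; ring
  · intro x hx v hv
    rw [Set.Finite.mem_toFinset, Set.mem_ofPred_eq, not_not] at hv
    obtain ⟨n, hn⟩ := hx
    have h1 : fv v ((T : K) ^ n * x) ≤ 1 := fv_int_le_one v (⟨_, hn⟩ : 𝓞 K)
    rw [map_mul, map_pow, hv, one_pow, one_mul] at h1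
    exact h1

/-- the conditions for the coefficients -/
def Dom (M k T : ℕ) (a δ : K) (g : K[X]) : Prop :=
  TInt T δ ∧ (∀ j, TInt T (g.coeff j)) ∧
  mulHeight₁ a * (mulHeight₁ δ * ∏ j ∈ Finset.range (k + 1), mulHeight₁ (g.coeff j)) ≤
      mulHeight₁ (g.coeff 0) ^ M ∧
    (mulHeight₁ δ * ∏ j ∈ Finset.range k, mulHeight₁ (g.coeff (j + 1))) ^ M ≤
      mulHeight₁ (g.coeff 0) ^ (M - 1)

lemma Dom.map {M k T : ℕ} {a δ : K} {g : K[X]} (h : Dom M k T a δ g) (L : Type) [Field L]
    [NumberField L] [Algebra K L] :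
    Dom M k T (algebraMap K L a) (algebraMap K L δ) (g.map (algebraMap K L)) := by
  obtain ⟨h1, h2, h3, h4⟩ := h
  refine ⟨h1.map _, ?_, ?_, ?_⟩
  · intro j
    rw [coeff_map]
    exact (h2 j).map _
  · simp only [coeff_map, height_ext, Finset.prod_pow]
    rw [← mul_pow, ← mul_pow, ← pow_mul, mul_comm (Module.finrank K L) M, pow_mul]
    apply pow_le_pow_left₀ _ h3
    exact mul_nonneg (mulHeight₁_nonneg _) (mul_nonneg (mulHeight₁_nonneg _)
      (Finset.prod_nonneg fun j _ => mulHeight₁_nonneg _))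
  · simp only [coeff_map, height_ext, Finset.prod_pow]
    rw [← mul_pow, ← pow_mul, ← pow_mul, mul_comm (Module.finrank K L) M,
      mul_comm (Module.finrank K L) (M - 1), pow_mul, pow_mul]
    apply pow_le_pow_left₀ _ h4
    exact pow_nonneg (mul_nonneg (mulHeight₁_nonneg _)
      (Finset.prod_nonneg fun j _ => mulHeight₁_nonneg _)) _

/-- **periodic sequences with `T`-integral coefficients** -/
theorem seq_TInt (D M k : ℕ) (hM : 1 ≤ M) : ∃ κ : ℕ, ∀ (K : Type) [Field K] [NumberField K],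
    Module.finrank ℚ K ≤ D → ∀ T d : ℕ, 1 ≤ T → (T + 1) ^ κ ≤ d → ∀ (a δ : K) (g : K[X]), a ≠ 0 →
    g.natDegree ≤ k → Dom M k T a δ g →
    (∀ y ∈ Crd a δ g d, ∀ z ∈ Crd a δ g d, y ^ d = z ^ d) ∨
      (∀ y ∈ Crd a δ g d, y = 0 ∨ ∃ n : ℕ, 1 ≤ n ∧ y ^ n = 1) := by
  classical
  obtain ⟨d₀, Λ, h⟩ := seq_main D M k hM
  refine ⟨d₀ + (D + 1) + Λ * D, ?_⟩
  intro K _ _ hK T d hT hd a δ g ha hg hdom
  obtain ⟨h1, h2, h3, h4⟩ := hdom
  obtain ⟨S, hS, hSx⟩ := exists_places D T hT hK
  have hpow : ∀ m : ℕ, m ≤ (T + 1) ^ m := by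
    intro m
    calc m ≤ 2 ^ m := Nat.lt_two_pow_self.le
      _ ≤ _ := Nat.pow_le_pow_left (by omega) _
  have hd0 : d₀ ≤ d := by
    refine le_trans ((hpow d₀).trans (Nat.pow_le_pow_right (by omega) ?_)) hd
    omega
  have hΛ : Λ * ∑ v ∈ S, Ideal.absNorm v.asIdeal ≤ d := by
    refine le_trans ?_ hd
    calc Λ * ∑ v ∈ S, Ideal.absNorm v.asIdeal ≤ Λ * (D * (T + 1) ^ (D + 1)) :=
          Nat.mul_le_mul_left _ hS
      _ = (Λ * D) * (T + 1) ^ (D + 1) := by ring
      _ ≤ (T + 1) ^ (Λ * D) * (T + 1) ^ (D + 1) := Nat.mul_le_mul_right _ (hpow _)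
      _ = (T + 1) ^ (Λ * D + (D + 1)) := by rw [← pow_add]
      _ ≤ _ := Nat.pow_le_pow_right (by omega) (by omega)
  apply h K hK S d hd0 hΛ a δ g ha hg
  · rw [← HS_of_integral S (g.coeff 0) (hSx _ (h2 0))]
    exact h3
  · rw [← HS_of_integral S (g.coeff 0) (hSx _ (h2 0)), ← HS_of_integral S δ (hSx _ h1)]
    have e1 : ∏ j ∈ Finset.range k, HS S (g.coeff (j + 1)) =
        ∏ j ∈ Finset.range k, mulHeight₁ (g.coeff (j + 1)) :=
      Finset.prod_congr rfl fun j _ => (HS_of_integral S _ (hSx _ (h2 (j + 1)))).symm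
    rw [e1]
    exact h4

end Run7.h197.U
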